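import Mathlib
import Pool.Agent.Q88.QN.Hilb

/-!
# The logarithm of a trigonometric polynomial
-/

set_option autoImplicit false

open Filter Topology MeasureTheory

namespace Q88.CC

open Q88.QN

/-- `-log s`, cut at zero, as an extended nonnegative number -/
noncomputable def psi (s : ℝ) : ENNReal := if s = 0 then ⊤ else ENNReal.ofReal (-Real.log s)

theorem psi_meas : Measurable psi := by
  unfold psi
  exact Measurable.ite (measurableSet_singleton 0) measurable_const
    (Real.measurable_log.neg.ennreal_ofReal)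

theorem lt_of_psi_lt (s c : ℝ) (hs : 0 ≤ s) (h : psi s < ENNReal.ofReal c) : Real.exp (-c) < s := by
  unfold psi at h
  split_ifs at h with h0
  · exact absurd h not_top_lt
  · have hc : 0 < c := by
      by_contra hc
      push Not at hc
      rw [ENNReal.ofReal_of_nonpos hc] at h
      exact absurd h not_lt_zero
    rw [ENNReal.ofReal_lt_ofReal_iff hc] at h
    have hs' : 0 < s := lt_of_le_of_ne hs (Ne.symm h0)
    rw [← Real.lt_log_iff_exp_lt hs']
    linarith

theorem psi_lsc (u : ℕ → ℝ) (s : ℝ) (hu : ∀ n, 0 ≤ u n) (h : Tendsto u atTop (𝓝 s)) :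
    psi s ≤ liminf (fun n => psi (u n)) atTop := by
  rcases eq_or_ne s 0 with hs | hs
  · have htop : liminf (fun n => psi (u n)) atTop = ⊤ := by
      apply ENNReal.eq_top_of_forall_nnreal_le
      intro r
      apply le_liminf_of_le
      · isBoundedDefault
      · have h1 : ∀ᶠ n in atTop, u n < Real.exp (-(r : ℝ)) := by
          rw [hs] at h
          exact h.eventually_lt_const (Real.exp_pos _)
        filter_upwards [h1] with n hn
        unfold psi
        split_ifs with h2
        · exact le_top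
        · have h3 : 0 < u n := lt_of_le_of_ne (hu n) (Ne.symm h2)
          rw [← ENNReal.ofReal_coe_nnreal]
          apply ENNReal.ofReal_le_ofReal
          have h4 := (Real.log_lt_iff_lt_exp h3).2 hn
          linarith
    rw [htop]
    exact le_top
  · have h1 : Tendsto (fun n => ENNReal.ofReal (-Real.log (u n))) atTop
        (𝓝 (ENNReal.ofReal (-Real.log s))) :=
      (ENNReal.continuous_ofReal.tendsto _).comp ((Real.continuousAt_log hs).tendsto.comp h).neg
    have h2 : psi s = ENNReal.ofReal (-Real.log s) := by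
      unfold psi
      rw [if_neg hs]
    rw [h2, ← h1.liminf_eq]
    refine liminf_le_liminf (Eventually.of_forall fun n => ?_) (by isBoundedDefault)
      (by isBoundedDefault)
    unfold psi
    split_ifs
    · exact le_top
    · exact le_rfl

theorem circle_eq (p : ℕ) (θ : ℝ) : (circleMap 0 1 θ) ^ p = ee p θ := by
  have h : circleMap 0 1 θ = Complex.exp (θ * Complex.I) := by
    rw [circleMap]
    simp
  rw [h, ee, ← Complex.exp_nat_mul]
  congr 1
  push_cast
  ring

/-- the polynomial with the given coefficients -/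
noncomputable def PP (n : ℕ) (x : ℕ → ℂ) : Polynomial ℂ :=
  ∑ p ∈ Finset.range n, Polynomial.monomial p (x p)

theorem PP_eval (n : ℕ) (x : ℕ → ℂ) (θ : ℝ) : (PP n x).eval (circleMap 0 1 θ) = tp n x θ := by
  rw [PP, tp, Polynomial.eval_finsetSum]
  refine Finset.sum_congr rfl fun p _ => ?_
  rw [Polynomial.eval_monomial, circle_eq]

theorem PP_coeff (n : ℕ) (hn : 0 < n) (x : ℕ → ℂ) : (PP n x).coeff 0 = x 0 := by
  rw [PP, Polynomial.finsetSum_coeff, Finset.sum_eq_single 0]
  · simp
  · intro p _ hp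
    rw [Polynomial.coeff_monomial, if_neg hp]
  · intro h
    exact absurd (Finset.mem_range.2 hn) h

/-- the measure -/
noncomputable def mu : Measure ℝ := volume.restrict (Set.Ioc 0 (2 * Real.pi))

theorem log_int (n : ℕ) (hn : 0 < n) (x : ℕ → ℂ) (hx : x 0 ≠ 0) :
    IntervalIntegrable (fun θ => Real.log ‖tp n x θ‖) volume 0 (2 * Real.pi) ∧
    2 * Real.pi * Real.log ‖x 0‖ ≤ ∫ θ in (0 : ℝ)..(2 * Real.pi), Real.log ‖tp n x θ‖ := by
  have hP : PP n x ≠ 0 := by
    intro h
    apply hx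
    rw [← PP_coeff n hn x, h, Polynomial.coeff_zero]
  have h1 := (PP n x).intervalIntegrable_mahlerMeasure
  simp_rw [PP_eval] at h1
  refine ⟨h1, ?_⟩
  have h2 := Polynomial.norm_coeff_le_choose_mul_mahlerMeasure 0 (PP n x)
  rw [PP_coeff n hn x, Nat.choose_zero_right, Nat.cast_one, one_mul] at h2
  have h3 := Real.log_le_log (norm_pos_iff.2 hx) h2
  rw [← Polynomial.logMahlerMeasure_eq_log_MahlerMeasure, Polynomial.logMahlerMeasure_def,
    Real.circleAverage_def] at h3
  simp_rw [PP_eval] at h3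
  rw [smul_eq_mul] at h3
  have hpi := Real.two_pi_pos
  have h4 := mul_le_mul_of_nonneg_left h3 hpi.le
  rwa [← mul_assoc, mul_inv_cancel₀ hpi.ne', one_mul] at h4

theorem tp_ne (n : ℕ) (hn : 0 < n) (x : ℕ → ℂ) (hx : x 0 ≠ 0) : ∀ᵐ θ ∂mu, tp n x θ ≠ 0 := by
  have hP : PP n x ≠ 0 := by
    intro h
    apply hx
    rw [← PP_coeff n hn x, h, Polynomial.coeff_zero]
  have h1 : ({z : ℂ | (PP n x).eval z = 0}).Countable := by
    have h2 : {z : ℂ | (PP n x).eval z = 0} = ((PP n x).roots.toFinset : Set ℂ) := by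
      ext z
      simp [Polynomial.mem_roots hP, Polynomial.IsRoot]
    rw [h2]
    exact (Finset.finite_toSet _).countable
  have h2 := h1.preimage_circleMap 0 (one_ne_zero : (1 : ℝ) ≠ 0)
  have h3 : ∀ᵐ θ ∂(volume : Measure ℝ), tp n x θ ≠ 0 := by
    have h4 := h2.ae_notMem (volume : Measure ℝ)
    filter_upwards [h4] with θ hθ h5
    apply hθ
    show (PP n x).eval (circleMap 0 1 θ) = 0
    rw [PP_eval, h5]
  exact ae_restrict_of_ae h3

theorem psi_tp (n : ℕ) (hn : 0 < n) (x : ℕ → ℂ) (hx : x 0 ≠ 0) :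
    ∫⁻ θ, psi ‖tp n x θ‖ ∂mu ≤ ENNReal.ofReal (2 * Real.pi * ∑ p ∈ Finset.range n, ‖x p‖ ^ 2 -
      2 * Real.pi * Real.log ‖x 0‖) := by
  obtain ⟨h1, h2⟩ := log_int n hn x hx
  set g : ℝ → ℝ := fun θ => ‖tp n x θ‖ ^ 2 - Real.log ‖tp n x θ‖ with hg
  have hpi := Real.two_pi_pos
  have hg0 : ∀ᵐ θ ∂mu, 0 ≤ g θ := by
    filter_upwards [tp_ne n hn x hx] with θ hθ
    have h3 := Real.log_le_sub_one_of_pos (norm_pos_iff.2 hθ)
    simp only [hg]
    nlinarith [sq_nonneg (‖tp n x θ‖ - 1)]
  have hgi : IntervalIntegrable g volume 0 (2 * Real.pi) := by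
    apply IntervalIntegrable.sub _ h1
    exact ((tp_cont n x).norm.pow 2).intervalIntegrable _ _
  have hgi' : Integrable g mu := by
    rw [intervalIntegrable_iff_integrableOn_Ioc_of_le hpi.le] at hgi
    exact hgi
  have h4 : ∫⁻ θ, psi ‖tp n x θ‖ ∂mu ≤ ∫⁻ θ, ENNReal.ofReal (g θ) ∂mu := by
    apply lintegral_mono_ae
    filter_upwards [tp_ne n hn x hx] with θ hθ
    unfold psi
    rw [if_neg (norm_ne_zero_iff.2 hθ)]
    apply ENNReal.ofReal_le_ofReal
    simp only [hg]
    have : 0 ≤ ‖tp n x θ‖ ^ 2 := by positivity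
    linarith
  refine h4.trans ?_
  rw [← ofReal_integral_eq_lintegral_ofReal hgi' hg0]
  apply ENNReal.ofReal_le_ofReal
  have h5 : ∫ θ, g θ ∂mu = ∫ θ in (0 : ℝ)..(2 * Real.pi), g θ := by
    rw [intervalIntegral.integral_of_le hpi.le]
    rfl
  have h6 : IntervalIntegrable (fun θ => ‖tp n x θ‖ ^ 2) volume 0 (2 * Real.pi) :=
    ((tp_cont n x).norm.pow 2).intervalIntegrable _ _
  have h7 : ∫ θ in (0 : ℝ)..(2 * Real.pi), g θ = (∫ θ in (0 : ℝ)..(2 * Real.pi), ‖tp n x θ‖ ^ 2) -
      ∫ θ in (0 : ℝ)..(2 * Real.pi), Real.log ‖tp n x θ‖ := intervalIntegral.integral_sub h6 h1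
  rw [h5, h7, tp_norm]
  linarith

end Q88.CC
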