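import Mathlib
import Pool.Agent.Q88.QN.Dens

/-!
# The unilateral shift on `ℓ²` and the resolvent of `1 - S` at the first basis vector
-/

set_option autoImplicit false

open Filter Topology Finset

namespace Q88.CC

open Q88.QN

/-- the sequence space -/
abbrev L2 : Type := XX ℂ

/-- the forward shift as a linear map -/
noncomputable def fshl : L2 →ₗ[ℂ] L2 where
  toFun f := ⟨fun n => Nat.casesOn n (0 : ℂ) (fun k => f k), memlp_of_sum _ (by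
    rw [← summable_nat_add_iff 1]
    exact (XX_sum f).summable)⟩
  map_add' f g := by
    ext n
    cases n with
    | zero => exact (add_zero (0 : ℂ)).symm
    | succ n => rfl
  map_smul' c f := by
    ext n
    cases n with
    | zero => exact (smul_zero c).symm
    | succ n => rfl

theorem fshl_zero (f : L2) : (fshl f) 0 = 0 := rfl

theorem fshl_succ (f : L2) (n : ℕ) : (fshl f) (n + 1) = f n := rfl

theorem fshl_bound (f : L2) : ‖fshl f‖ ≤ 1 * ‖f‖ := by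
  rw [one_mul]
  apply XX_le _ _ (norm_nonneg _)
  rw [← (XX_sum f).tsum_eq, (XX_sum (fshl f)).summable.tsum_eq_zero_add, fshl_zero]
  simp only [fshl_succ]
  simp

/-- the forward shift -/
noncomputable def fsh : L2 →L[ℂ] L2 := fshl.mkContinuous 1 fshl_bound

theorem fsh_zero (f : L2) : (fsh f) 0 = 0 := rfl

theorem fsh_succ (f : L2) (n : ℕ) : (fsh f) (n + 1) = f n := rfl

theorem fsh_norm : ‖fsh‖ ≤ 1 := LinearMap.mkContinuous_norm_le _ zero_le_one _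

/-- `A = 1 - S` -/
noncomputable def AA : L2 →L[ℂ] L2 := 1 - fsh

theorem AA_norm : ‖AA‖ ≤ 2 := by
  have h1 : ‖(1 : L2 →L[ℂ] L2)‖ ≤ 1 := ContinuousLinearMap.norm_id_le
  refine (norm_sub_le _ _).trans ?_
  have := fsh_norm
  linarith

/-- the first basis vector -/
noncomputable def e0 : L2 := lp.single (E := fun _ : ℕ => ℂ) 2 0 (1 : ℂ)

theorem e0_zero : e0 0 = 1 := by
  rw [e0]
  simp

theorem e0_succ (n : ℕ) : e0 (n + 1) = 0 := by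
  rw [e0]
  simp

/-- the numbers `z = -ζ / (1 - ζ)` -/
noncomputable def zz (ζ : ℂ) : ℂ := -ζ / (1 - ζ)

theorem one_sub_ne (ζ : ℂ) (hζ : ζ.re < 1 / 2) : 1 - ζ ≠ 0 := by
  intro h
  have : ζ = 1 := by rw [sub_eq_zero] at h; exact h.symm
  rw [this] at hζ
  norm_num at hζ

theorem normSq_id (ζ : ℂ) : ‖1 - ζ‖ ^ 2 - ‖ζ‖ ^ 2 = 1 - 2 * ζ.re := by
  rw [← Complex.normSq_eq_norm_sq, ← Complex.normSq_eq_norm_sq, Complex.normSq_apply,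
    Complex.normSq_apply]
  simp
  ring

theorem zz_lt (ζ : ℂ) (hζ : ζ.re < 1 / 2) : ‖zz ζ‖ < 1 := by
  have h1 := normSq_id ζ
  have h2 : 0 < ‖1 - ζ‖ := norm_pos_iff.2 (one_sub_ne ζ hζ)
  rw [zz, norm_div, norm_neg, div_lt_one h2]
  by_contra h
  push Not at h
  nlinarith [norm_nonneg ζ]

theorem RR_mem (ζ : ℂ) (hζ : ζ.re < 1 / 2) :
    HasSum (fun j : ℕ => ‖(1 - ζ)⁻¹ * zz ζ ^ j‖ ^ 2) (1 / (1 - 2 * ζ.re)) := by
  have h1 := zz_lt ζ hζ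
  have h2 : ∀ j : ℕ, ‖(1 - ζ)⁻¹ * zz ζ ^ j‖ ^ 2 = ‖(1 - ζ)⁻¹‖ ^ 2 * (‖zz ζ‖ ^ 2) ^ j := by
    intro j
    rw [norm_mul, mul_pow, norm_pow, ← pow_mul, ← pow_mul, mul_comm j 2]
  simp_rw [h2]
  have h3 : ‖zz ζ‖ ^ 2 < 1 := by nlinarith [norm_nonneg (zz ζ)]
  have h4 := (hasSum_geometric_of_lt_one (sq_nonneg ‖zz ζ‖) h3).mul_left (‖(1 - ζ)⁻¹‖ ^ 2)
  have h5 : ‖(1 - ζ)⁻¹‖ ^ 2 * (1 - ‖zz ζ‖ ^ 2)⁻¹ = 1 / (1 - 2 * ζ.re) := by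
    have h6 : 0 < ‖1 - ζ‖ := norm_pos_iff.2 (one_sub_ne ζ hζ)
    have h7 : 0 < 1 - 2 * ζ.re := by linarith
    rw [← normSq_id ζ] at h7 ⊢
    rw [zz, norm_div, norm_neg, norm_inv]
    have h8 : 1 - (‖ζ‖ / ‖1 - ζ‖) ^ 2 = (‖1 - ζ‖ ^ 2 - ‖ζ‖ ^ 2) / ‖1 - ζ‖ ^ 2 := by
      field_simp
    rw [h8]
    field_simp
  rw [h5] at h4
  exact h4

/-- the vector `(1 - ζ (1 - S))⁻¹ e₀` -/
noncomputable def RR (ζ : ℂ) (hζ : ζ.re < 1 / 2) : L2 :=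
  ⟨fun j => (1 - ζ)⁻¹ * zz ζ ^ j, memlp_of_sum _ (RR_mem ζ hζ).summable⟩

theorem RR_apply (ζ : ℂ) (hζ : ζ.re < 1 / 2) (j : ℕ) : RR ζ hζ j = (1 - ζ)⁻¹ * zz ζ ^ j := rfl

theorem RR_norm (ζ : ℂ) (hζ : ζ.re < 1 / 2) : ‖RR ζ hζ‖ ^ 2 = 1 / (1 - 2 * ζ.re) := by
  rw [← (XX_sum (RR ζ hζ)).tsum_eq]
  exact (RR_mem ζ hζ).tsum_eq

theorem RR_norm_le (ζ : ℂ) (hζ : ζ.re < 1 / 2) (h0 : ζ.re ≤ 0) : ‖RR ζ hζ‖ ≤ 1 := by
  have h1 := RR_norm ζ hζ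
  have h2 : 1 / (1 - 2 * ζ.re) ≤ 1 := by
    rw [div_le_one (by linarith)]
    linarith
  rw [← h1] at h2
  nlinarith [norm_nonneg (RR ζ hζ)]

theorem RR_eq (ζ : ℂ) (hζ : ζ.re < 1 / 2) : RR ζ hζ = e0 + ζ • AA (RR ζ hζ) := by
  have h0 := one_sub_ne ζ hζ
  have h1 : AA (RR ζ hζ) = RR ζ hζ - fsh (RR ζ hζ) := rfl
  rw [h1]
  ext j
  have h2 : (e0 + ζ • (RR ζ hζ - fsh (RR ζ hζ))) j =
      e0 j + ζ * (RR ζ hζ j - fsh (RR ζ hζ) j) := rfl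
  rw [h2]
  cases j with
  | zero =>
    rw [e0_zero, fsh_zero, RR_apply]
    field_simp
    ring
  | succ j =>
    rw [e0_succ, fsh_succ, RR_apply, RR_apply]
    have hz : zz ζ * (1 - ζ) = -ζ := by
      rw [zz]
      field_simp
    rw [pow_succ]
    linear_combination ((1 - ζ)⁻¹ * zz ζ ^ j) * hz

theorem RR_iter (ζ : ℂ) (hζ : ζ.re < 1 / 2) (K : ℕ) :
    RR ζ hζ = ∑ k ∈ range K, ζ ^ k • (AA ^ k) e0 + ζ ^ K • (AA ^ K) (RR ζ hζ) := by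
  induction K with
  | zero => simp
  | succ K ih =>
    rw [sum_range_succ]
    have h1 : ζ ^ K • (AA ^ K) (RR ζ hζ) = ζ ^ K • (AA ^ K) e0 +
        ζ ^ (K + 1) • (AA ^ (K + 1)) (RR ζ hζ) := by
      conv_lhs => rw [RR_eq ζ hζ]
      rw [map_add, map_smul, smul_add, smul_smul, ← pow_succ, ← mul_apply_eq_comp, ← pow_succ]
    rw [add_assoc, ← h1]
    exact ih

theorem GG_tendsto (h : L2) (ζ : ℂ) (hζ : ζ.re < 1 / 2) (hζ2 : ‖ζ‖ < 1 / 2) :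
    Tendsto (fun K : ℕ => ∑ k ∈ range K, ζ ^ k * inner ℂ h ((AA ^ k) e0)) atTop
      (𝓝 (inner ℂ h (RR ζ hζ))) := by
  have hA : ∀ (K : ℕ) (x : L2), ‖(AA ^ K) x‖ ≤ 2 ^ K * ‖x‖ := by
    intro K x
    induction K with
    | zero => simp
    | succ K ih =>
      rw [pow_succ', mul_apply_eq_comp]
      calc ‖AA ((AA ^ K) x)‖ ≤ ‖AA‖ * ‖(AA ^ K) x‖ := AA.le_opNorm _
        _ ≤ 2 * (2 ^ K * ‖x‖) := mul_le_mul AA_norm ih (norm_nonneg _) (by norm_num)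
        _ = 2 ^ (K + 1) * ‖x‖ := by ring
  have h1 : ∀ K : ℕ, inner ℂ h (RR ζ hζ) - ∑ k ∈ range K, ζ ^ k * inner ℂ h ((AA ^ k) e0) =
      ζ ^ K * inner ℂ h ((AA ^ K) (RR ζ hζ)) := by
    intro K
    conv_lhs => rw [RR_iter ζ hζ K]
    rw [inner_add_right, inner_sum, inner_smul_right]
    simp_rw [inner_smul_right]
    ring
  rw [tendsto_iff_norm_sub_tendsto_zero]
  have h2 : ∀ K : ℕ, ‖∑ k ∈ range K, ζ ^ k * inner ℂ h ((AA ^ k) e0) - inner ℂ h (RR ζ hζ)‖ ≤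
      (‖h‖ * ‖RR ζ hζ‖) * (2 * ‖ζ‖) ^ K := by
    intro K
    rw [norm_sub_rev, h1, norm_mul, norm_pow]
    have h3 : ‖inner ℂ h ((AA ^ K) (RR ζ hζ))‖ ≤ ‖h‖ * (2 ^ K * ‖RR ζ hζ‖) :=
      (norm_inner_le_norm _ _).trans (mul_le_mul_of_nonneg_left (hA K _) (norm_nonneg _))
    calc ‖ζ‖ ^ K * ‖inner ℂ h ((AA ^ K) (RR ζ hζ))‖ ≤ ‖ζ‖ ^ K * (‖h‖ * (2 ^ K * ‖RR ζ hζ‖)) :=
          mul_le_mul_of_nonneg_left h3 (by positivity)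
      _ = (‖h‖ * ‖RR ζ hζ‖) * (2 * ‖ζ‖) ^ K := by
          rw [mul_pow]
          ring
  have h3 : Tendsto (fun K : ℕ => (‖h‖ * ‖RR ζ hζ‖) * (2 * ‖ζ‖) ^ K) atTop (𝓝 0) := by
    have := (tendsto_pow_atTop_nhds_zero_of_lt_one (r := 2 * ‖ζ‖) (by positivity)
      (by linarith)).const_mul (‖h‖ * ‖RR ζ hζ‖)
    rwa [mul_zero] at this
  exact squeeze_zero (fun K => norm_nonneg _) h2 h3

end Q88.CC
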