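import Mathlib
import Pool.Agent.Q88.CC.Jen
import Pool.Agent.Q88.CC.Shift

/-!
# Boundary functions
-/

set_option autoImplicit false

open Filter Topology MeasureTheory

namespace Q88.CC

open Q88.QN

instance : IsFiniteMeasure mu := by
  unfold mu
  infer_instance

/-- the space `L²` of the circle -/
abbrev E2 : Type := Lp ℂ 2 mu

/-- the constant `1 / √(2π)` -/
noncomputable def cc : ℝ := (√(2 * Real.pi))⁻¹

theorem cc_pos : 0 < cc := by
  unfold cc
  have := Real.two_pi_pos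
  positivity

theorem cc_sq : cc * cc * (2 * Real.pi) = 1 := by
  unfold cc
  have h := Real.two_pi_pos
  have h1 := Real.mul_self_sqrt h.le
  have h2 : √(2 * Real.pi) ≠ 0 := (Real.sqrt_pos.2 h).ne'
  rw [← mul_inv, h1, inv_mul_cancel₀ h.ne']

theorem ee_mem (m : ℤ) : MemLp (fun θ => (cc : ℂ) * ee m θ) 2 mu := by
  have h1 : ∀ θ, ‖(cc : ℂ) * ee m θ‖ ≤ cc := by
    intro θ
    rw [norm_mul, Complex.norm_real, Real.norm_eq_abs, abs_of_pos cc_pos]
    have h2 : ‖ee m θ‖ = 1 := by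
      unfold ee
      have : Complex.I * m * (θ : ℂ) = ((m * θ : ℝ) : ℂ) * Complex.I := by
        push_cast
        ring
      rw [this, Complex.norm_exp_ofReal_mul_I]
    rw [h2, mul_one]
  exact MemLp.of_bound (continuous_const.mul (ee_cont m)).aestronglyMeasurable cc
    (Eventually.of_forall h1)

/-- the orthonormal basis vectors -/
noncomputable def vv (n : ℕ) : E2 := (ee_mem n).toLp _

theorem vv_coe (n : ℕ) : vv n =ᵐ[mu] fun θ => (cc : ℂ) * ee n θ := (ee_mem n).coeFn_toLp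

theorem mu_int (f : ℝ → ℂ) : ∫ θ, f θ ∂mu = ∫ θ in (0 : ℝ)..(2 * Real.pi), f θ := by
  rw [intervalIntegral.integral_of_le Real.two_pi_pos.le]
  rfl

theorem vv_inner (m n : ℕ) : inner ℂ (vv m) (vv n) = if m = n then 1 else 0 := by
  rw [MeasureTheory.L2.inner_def]
  have h1 : ∫ θ, inner ℂ (vv m θ) (vv n θ) ∂mu =
      ∫ θ, ((cc * cc : ℝ) : ℂ) * ee ((n : ℤ) - m) θ ∂mu := by
    apply integral_congr_ae
    filter_upwards [vv_coe m, vv_coe n] with θ h1 h2
    rw [h1, h2, RCLike.inner_apply, map_mul, Complex.conj_ofReal, ← conj_ee_mul]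
    push_cast
    ring
  rw [h1, mu_int, intervalIntegral.integral_const_mul]
  split_ifs with h
  · subst h
    simp only [sub_self, ee_zero_eq]
    rw [intervalIntegral.integral_const, sub_zero]
    have h2 := cc_sq
    rw [Complex.real_smul, mul_one]
    exact_mod_cast h2
  · rw [ee_int, mul_zero]
    intro h2
    apply h
    omega

theorem vv_orth : Orthonormal ℂ vv := by
  rw [orthonormal_iff_ite]
  exact vv_inner

/-- the isometry from the sequence space to `L²` -/
noncomputable def JJ : L2 →ₗᵢ[ℂ] E2 := vv_orth.orthogonalFamily.linearIsometry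

theorem JJ_single (n : ℕ) (a : ℂ) : JJ (lp.single (E := fun _ : ℕ => ℂ) 2 n a) = a • vv n := by
  unfold JJ
  rw [OrthogonalFamily.linearIsometry_apply_single]
  rfl

theorem JJ_sum (x : L2) : HasSum (fun n => x n • vv n) (JJ x) :=
  vv_orth.orthogonalFamily.hasSum_linearIsometry x

theorem psum_coe (N : ℕ) (x : ℕ → ℂ) :
    ((∑ n ∈ Finset.range N, x n • vv n : E2) : ℝ → ℂ) =ᵐ[mu] fun θ => (cc : ℂ) * tp N x θ := by
  induction N with
  | zero =>
    simp only [Finset.range_zero, Finset.sum_empty]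
    filter_upwards [Lp.coeFn_zero ℂ 2 mu] with θ h
    rw [h]
    simp [tp]
  | succ N ih =>
    rw [Finset.sum_range_succ]
    filter_upwards [ih, Lp.coeFn_add (∑ n ∈ Finset.range N, x n • vv n) (x N • vv N),
      Lp.coeFn_smul (x N) (vv N), vv_coe N] with θ h1 h2 h3 h4
    rw [h2, Pi.add_apply, h1, h3, Pi.smul_apply, h4, smul_eq_mul, tp, tp, Finset.sum_range_succ]
    ring

theorem tp_shift (m N : ℕ) (x : ℕ → ℂ) (hx : ∀ j, j < m → x j = 0) (θ : ℝ) :
    ‖tp (m + N) x θ‖ = ‖tp N (fun j => x (j + m)) θ‖ := by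
  have h1 : tp (m + N) x θ = ee m θ * tp N (fun j => x (j + m)) θ := by
    rw [tp, tp, Finset.sum_range_add, Finset.mul_sum]
    have h2 : ∑ p ∈ Finset.range m, x p * ee p θ = 0 := by
      apply Finset.sum_eq_zero
      intro p hp
      rw [hx p (Finset.mem_range.1 hp), zero_mul]
    rw [h2, zero_add]
    refine Finset.sum_congr rfl fun p _ => ?_
    have h3 : ee ((m + p : ℕ) : ℤ) θ = ee m θ * ee p θ := by
      rw [← circle_eq, ← circle_eq, ← circle_eq, pow_add]
    rw [h3, add_comm m p]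
    ring
  have h2 : ‖ee m θ‖ = 1 := by
    unfold ee
    have : Complex.I * ((m : ℤ) : ℂ) * (θ : ℂ) = ((m * θ : ℝ) : ℂ) * Complex.I := by
      push_cast
      ring
    rw [this, Complex.norm_exp_ofReal_mul_I]
  rw [h1, norm_mul, h2, one_mul]

/-- the logarithm of the boundary function of a nonzero vector is integrable -/
theorem log_bdry (x : L2) (hx : x ≠ 0) :
    ∃ F : ℝ → ℂ, Measurable F ∧ (∀ᵐ θ ∂mu, F θ = (cc : ℂ)⁻¹ * JJ x θ) ∧
      ∫⁻ θ, psi ‖F θ‖ ∂mu ≠ ⊤ := by
  classical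
  have hex : ∃ m, x m ≠ 0 := by
    by_contra h
    push Not at h
    apply hx
    ext n
    exact h n
  set m := Nat.find hex with hm
  have hm1 : x m ≠ 0 := Nat.find_spec hex
  have hm2 : ∀ j, j < m → x j = 0 := fun j hj => by
    have := Nat.find_min hex hj
    push Not at this
    exact this
  have ht : Tendsto (fun N : ℕ => ∑ n ∈ Finset.range (m + (N + 1)), x n • vv n) atTop (𝓝 (JJ x)) :=
    (JJ_sum x).tendsto_sum_nat.comp (tendsto_atTop_mono (fun N => by
      show N ≤ m + (N + 1)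
      omega) tendsto_id)
  have hm3 : TendstoInMeasure mu (fun N : ℕ => ((∑ n ∈ Finset.range (m + (N + 1)), x n • vv n : E2) :
      ℝ → ℂ)) atTop (JJ x) := tendstoInMeasure_of_tendsto_Lp ht
  obtain ⟨ns, hns, hae⟩ := hm3.exists_seq_tendsto_ae
  have hJm : AEStronglyMeasurable (JJ x : ℝ → ℂ) mu := Lp.aestronglyMeasurable _
  obtain ⟨f, hfm, hf⟩ : ∃ f : ℝ → ℂ, Measurable f ∧ (JJ x : ℝ → ℂ) =ᵐ[mu] f :=
    ⟨hJm.mk _, hJm.stronglyMeasurable_mk.measurable, hJm.ae_eq_mk⟩
  refine ⟨fun θ => (cc : ℂ)⁻¹ * f θ, hfm.const_mul _, ?_, ?_⟩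
  · filter_upwards [hf] with θ h
    rw [h]
  · have hcc : (cc : ℂ) ≠ 0 := by exact_mod_cast cc_pos.ne'
    have hae2 : ∀ᵐ θ ∂mu, ∀ N : ℕ, ((∑ n ∈ Finset.range (m + (N + 1)), x n • vv n : E2) :
        ℝ → ℂ) θ = (cc : ℂ) * tp (m + (N + 1)) x θ := by
      rw [ae_all_iff]
      intro N
      exact psum_coe _ _
    set B : ENNReal := ENNReal.ofReal (2 * Real.pi * ‖x‖ ^ 2 - 2 * Real.pi * Real.log ‖x m‖) with hB
    have hbound : ∀ N : ℕ, ∫⁻ θ, psi ‖tp (m + (N + 1)) x θ‖ ∂mu ≤ B := by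
      intro N
      have h1 := psi_tp (N + 1) (Nat.succ_pos N) (fun j => x (j + m)) (by
        show x (0 + m) ≠ 0
        rw [zero_add]
        exact hm1)
      have h2 : ∀ θ, psi ‖tp (m + (N + 1)) x θ‖ = psi ‖tp (N + 1) (fun j => x (j + m)) θ‖ :=
        fun θ => by rw [tp_shift m (N + 1) x hm2]
      simp_rw [h2]
      refine h1.trans (ENNReal.ofReal_le_ofReal ?_)
      have h3 : ∑ p ∈ Finset.range (N + 1), ‖x (p + m)‖ ^ 2 ≤ ‖x‖ ^ 2 := by
        rw [← (XX_sum x).tsum_eq]
        have hs := (XX_sum x).summable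
        have hs' : Summable fun p => ‖x (p + m)‖ ^ 2 := (summable_nat_add_iff m).2 hs
        refine (hs'.sum_le_tsum _ (fun i _ => by positivity)).trans ?_
        rw [← hs.sum_add_tsum_nat_add m]
        have : 0 ≤ ∑ i ∈ Finset.range m, ‖x i‖ ^ 2 := Finset.sum_nonneg fun i _ => by positivity
        linarith
      have hpi := Real.two_pi_pos
      simp only [zero_add]
      have := mul_le_mul_of_nonneg_left h3 hpi.le
      linarith
    have hfatou : ∫⁻ θ, psi ‖(cc : ℂ)⁻¹ * f θ‖ ∂mu ≤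
        liminf (fun i => ∫⁻ θ, psi ‖tp (m + (ns i + 1)) x θ‖ ∂mu) atTop := by
      refine le_trans ?_ (lintegral_liminf_le fun i => ?_)
      · apply lintegral_mono_ae
        filter_upwards [hf, hae, hae2] with θ h1 h2 h3
        apply psi_lsc _ _ (fun i => norm_nonneg _)
        apply Tendsto.norm
        have h4 : ∀ i, tp (m + (ns i + 1)) x θ = (cc : ℂ)⁻¹ *
            ((∑ n ∈ Finset.range (m + (ns i + 1)), x n • vv n : E2) : ℝ → ℂ) θ := by
          intro i
          rw [h3, ← mul_assoc, inv_mul_cancel₀ hcc, one_mul]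
        simp_rw [h4]
        rw [← h1]
        exact h2.const_mul _
      · exact psi_meas.comp (tp_cont _ _).norm.measurable
    have hle : liminf (fun i => ∫⁻ θ, psi ‖tp (m + (ns i + 1)) x θ‖ ∂mu) atTop ≤ B := by
      refine le_trans liminf_le_limsup ?_
      exact limsup_le_of_le (by isBoundedDefault) (Eventually.of_forall fun i => hbound _)
    exact ne_top_of_le_ne_top ENNReal.ofReal_ne_top (hfatou.trans hle)

end Q88.CC
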