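import Mathlib
import Pool.Agent.Q88.CC.Shift

/-!
# The first basis vector is real-cyclic for `i (1 - S)`
-/

set_option autoImplicit false

open Filter Topology Finset

namespace Q88.CC

open Q88.QN

section

variable (h : L2)

/-- the function `ζ ↦ ⟨h, (1 - ζ (1 - S))⁻¹ e₀⟩` -/
noncomputable def GG (ζ : ℂ) : ℂ := (1 - ζ)⁻¹ * ∑' j, (starRingEnd ℂ) (h j) * zz ζ ^ j

/-- the reflected function -/
noncomputable def G2 (ζ : ℂ) : ℂ := -(starRingEnd ℂ) (GG h (-(starRingEnd ℂ) ζ))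

theorem GG_eq (ζ : ℂ) (hζ : ζ.re < 1 / 2) : GG h ζ = inner ℂ h (RR ζ hζ) := by
  rw [lp.inner_eq_tsum, GG, ← tsum_mul_left]
  congr 1
  ext j
  rw [RR_apply, RCLike.inner_apply]
  ring

theorem GG_diff : DifferentiableOn ℂ (GG h) {ζ : ℂ | ζ.re < 1 / 2} := by
  have h1 : DifferentiableOn ℂ (fun z : ℂ => ∑' j, (starRingEnd ℂ) (h j) * z ^ j)
      (Metric.ball 0 1) := by
    apply tsum_diff _ ‖h‖
    intro j
    rw [RCLike.norm_conj]
    exact lp.norm_apply_le_norm (by norm_num) h j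
  have h2 : ∀ ζ ∈ {ζ : ℂ | ζ.re < 1 / 2}, (1 : ℂ) - ζ ≠ 0 := fun ζ hζ => one_sub_ne ζ hζ
  have h3 : DifferentiableOn ℂ (fun ζ : ℂ => (1 - ζ)) {ζ : ℂ | ζ.re < 1 / 2} :=
    (differentiableOn_const _).sub differentiableOn_id
  have h4 : DifferentiableOn ℂ zz {ζ : ℂ | ζ.re < 1 / 2} :=
    (differentiableOn_id.neg).div h3 h2
  refine (h3.inv h2).mul (h1.comp h4 ?_)
  intro ζ hζ
  rw [Metric.mem_ball, dist_zero_right]
  exact zz_lt ζ hζ

theorem GG_bound (ζ : ℂ) (hζ : ζ.re ≤ 0) : ‖GG h ζ‖ ≤ ‖h‖ := by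
  have h0 : ζ.re < 1 / 2 := by linarith
  rw [GG_eq h ζ h0]
  refine (norm_inner_le_norm _ _).trans ?_
  exact mul_le_of_le_one_right (norm_nonneg _) (RR_norm_le ζ h0 hζ)

theorem G2_bound (ζ : ℂ) (hζ : 0 ≤ ζ.re) : ‖G2 h ζ‖ ≤ ‖h‖ := by
  rw [G2, norm_neg, RCLike.norm_conj]
  apply GG_bound
  simp only [Complex.neg_re, Complex.conj_re]
  linarith

theorem G2_diff : DifferentiableOn ℂ (G2 h) {ζ : ℂ | -(1 / 2) < ζ.re} := by
  intro ζ hζ
  have h1 : (-(starRingEnd ℂ) ζ).re < 1 / 2 := by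
    simp only [Complex.neg_re, Complex.conj_re]
    rw [Set.mem_ofPred_eq] at hζ
    linarith
  have hopen : IsOpen {ζ : ℂ | ζ.re < 1 / 2} := isOpen_lt Complex.continuous_re continuous_const
  have h2 : DifferentiableAt ℂ (GG h) (-(starRingEnd ℂ) ζ) :=
    (GG_diff h).differentiableAt (hopen.mem_nhds h1)
  have h3 : DifferentiableAt ℂ (fun w => GG h (-w)) ((starRingEnd ℂ) ζ) :=
    DifferentiableAt.comp (f := fun w : ℂ => -w) ((starRingEnd ℂ) ζ) h2 differentiableAt_id.neg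
  have h4 := h3.conj_conj
  rw [Complex.conj_conj] at h4
  exact h4.neg.differentiableWithinAt

/-- the moments satisfy the symmetry relation -/
def Sym : Prop := ∀ k : ℕ, (starRingEnd ℂ) (inner ℂ h ((AA ^ k) e0)) =
  (-1) ^ (k + 1) * inner ℂ h ((AA ^ k) e0)

variable {h}

theorem G2_eq_near (hs : Sym h) (ζ : ℂ) (hζ : ‖ζ‖ < 1 / 2) : G2 h ζ = GG h ζ := by
  have hre : ζ.re < 1 / 2 := (Complex.re_le_norm ζ).trans_lt hζ
  have hζ2 : ‖-(starRingEnd ℂ) ζ‖ < 1 / 2 := by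
    rw [norm_neg, RCLike.norm_conj]
    exact hζ
  have hre2 : (-(starRingEnd ℂ) ζ).re < 1 / 2 := (Complex.re_le_norm _).trans_lt hζ2
  have h1 := GG_tendsto h ζ hre hζ
  have h2 := GG_tendsto h (-(starRingEnd ℂ) ζ) hre2 hζ2
  rw [← GG_eq] at h1 h2
  have h3 := ((Complex.continuous_conj.tendsto _).comp h2).neg
  refine tendsto_nhds_unique h3 (h1.congr fun K => ?_)
  simp only [Function.comp_apply]
  rw [map_sum, ← sum_neg_distrib]
  refine sum_congr rfl fun k _ => ?_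
  rw [map_mul, hs k, map_pow, map_neg, Complex.conj_conj, neg_pow ζ, pow_succ]
  have h4 : ((-1 : ℂ) ^ k) * (-1) ^ k = 1 := by
    rw [← mul_pow]
    norm_num
  linear_combination (-(ζ ^ k * inner ℂ h ((AA ^ k) e0))) * h4

theorem G2_eq (hs : Sym h) (ζ : ℂ) (hζ1 : -(1 / 2) < ζ.re) (hζ2 : ζ.re < 1 / 2) :
    G2 h ζ = GG h ζ := by
  set U : Set ℂ := {ζ : ℂ | -(1 / 2) < ζ.re} ∩ {ζ : ℂ | ζ.re < 1 / 2} with hU
  have hU1 : IsOpen {ζ : ℂ | -(1 / 2) < ζ.re} := isOpen_lt continuous_const Complex.continuous_re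
  have hU2 : IsOpen {ζ : ℂ | ζ.re < 1 / 2} := isOpen_lt Complex.continuous_re continuous_const
  have hUo : IsOpen U := hU1.inter hU2
  have hconv : Convex ℝ U := (convex_halfSpace_re_gt _).inter (convex_halfSpace_re_lt _)
  have a1 : AnalyticOnNhd ℂ (G2 h) U := ((G2_diff h).mono Set.inter_subset_left).analyticOnNhd hUo
  have a2 : AnalyticOnNhd ℂ (GG h) U := ((GG_diff h).mono Set.inter_subset_right).analyticOnNhd hUo
  have h0 : (0 : ℂ) ∈ U := by
    constructor <;> simp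
  have hev : G2 h =ᶠ[𝓝 0] GG h := by
    filter_upwards [Metric.ball_mem_nhds (0 : ℂ) (by norm_num : (0 : ℝ) < 1 / 2)] with w hw
    rw [Metric.mem_ball, dist_zero_right] at hw
    exact G2_eq_near hs w hw
  exact a1.eqOn_of_preconnected_of_eventuallyEq a2 hconv.isPreconnected h0 hev ⟨hζ1, hζ2⟩

/-- the two functions glue to an entire function -/
noncomputable def GE (h : L2) (ζ : ℂ) : ℂ := if ζ.re ≤ 0 then GG h ζ else G2 h ζ

theorem GE_eq1 (hs : Sym h) (ζ : ℂ) (hζ : ζ.re < 1 / 2) : GE h ζ = GG h ζ := by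
  rw [GE]
  split_ifs with h1
  · rfl
  · push Not at h1
    exact G2_eq hs ζ (by linarith) hζ

theorem GE_eq2 (hs : Sym h) (ζ : ℂ) (hζ : -(1 / 2) < ζ.re) : GE h ζ = G2 h ζ := by
  rw [GE]
  split_ifs with h1
  · exact (G2_eq hs ζ hζ (by linarith)).symm
  · rfl

theorem GE_diff (hs : Sym h) : Differentiable ℂ (GE h) := by
  intro ζ
  rcases lt_or_ge ζ.re (1 / 2) with hζ | hζ
  · have hU2 : IsOpen {ζ : ℂ | ζ.re < 1 / 2} := isOpen_lt Complex.continuous_re continuous_const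
    have h1 : DifferentiableAt ℂ (GG h) ζ := (GG_diff h).differentiableAt (hU2.mem_nhds hζ)
    refine h1.congr_of_eventuallyEq ?_
    filter_upwards [hU2.mem_nhds hζ] with w hw
    exact GE_eq1 hs w hw
  · have hU1 : IsOpen {ζ : ℂ | -(1 / 2) < ζ.re} := isOpen_lt continuous_const Complex.continuous_re
    have hζ' : ζ ∈ {ζ : ℂ | -(1 / 2) < ζ.re} := by
      show -(1 / 2) < ζ.re
      linarith
    have h1 : DifferentiableAt ℂ (G2 h) ζ := (G2_diff h).differentiableAt (hU1.mem_nhds hζ')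
    refine h1.congr_of_eventuallyEq ?_
    filter_upwards [hU1.mem_nhds hζ'] with w hw
    exact GE_eq2 hs w hw

theorem GE_const (hs : Sym h) (ζ : ℂ) : GE h ζ = GE h 0 := by
  apply (GE_diff hs).apply_eq_apply_of_bounded
  rw [isBounded_iff_forall_norm_le]
  refine ⟨‖h‖, ?_⟩
  rintro _ ⟨w, rfl⟩
  rcases le_or_gt w.re 0 with hw | hw
  · rw [GE_eq1 hs w (by linarith)]
    exact GG_bound h w hw
  · rw [GE_eq2 hs w (by linarith)]
    exact G2_bound h w hw.le

/-- The symmetry relation forces `h = 0`. -/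
theorem eq_zero_of_sym (hs : Sym h) : h = 0 := by
  set c : ℂ := GE h 0 with hc
  set a : ℕ → ℂ := fun j => (starRingEnd ℂ) (h j) -
    Nat.casesOn j c (fun i => (starRingEnd ℂ) (h i)) with ha
  have hle : ∀ j, ‖(starRingEnd ℂ) (h j)‖ ≤ ‖h‖ := by
    intro j
    rw [RCLike.norm_conj]
    exact lp.norm_apply_le_norm (by norm_num) h j
  have hbd : ∀ n, ‖a n‖ ≤ 2 * ‖h‖ + ‖c‖ := by
    intro n
    have h1 := norm_nonneg c
    have h2 := norm_nonneg h
    cases n with
    | zero =>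
      refine (norm_sub_le _ _).trans ?_
      have := hle 0
      show ‖(starRingEnd ℂ) (h 0)‖ + ‖c‖ ≤ _
      linarith
    | succ n =>
      refine (norm_sub_le _ _).trans ?_
      have := hle n
      have := hle (n + 1)
      show ‖(starRingEnd ℂ) (h (n + 1))‖ + ‖(starRingEnd ℂ) (h n)‖ ≤ _
      linarith
  have hz : ∀ β : ℝ, 1 / 8 < β → β < 1 / 4 → ∑' n, a n * (β : ℂ) ^ n = 0 := by
    intro β hβ1 hβ2
    have hβn : ‖(β : ℂ)‖ < 1 := by
      rw [Complex.norm_real, Real.norm_eq_abs, abs_of_pos (by linarith)]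
      linarith
    have hb1 : (1 - β : ℝ) ≠ 0 := by
      intro h
      linarith
    have hb1c : (1 - (β : ℂ)) ≠ 0 := by exact_mod_cast hb1
    set ζ : ℂ := ((-(β / (1 - β)) : ℝ) : ℂ) with hζ
    have hζre : ζ.re ≤ 0 := by
      rw [hζ, Complex.ofReal_re]
      have : 0 < β / (1 - β) := div_pos (by linarith) (by linarith)
      linarith
    have h1ζ : 1 - ζ = (1 - (β : ℂ))⁻¹ := by
      rw [hζ]
      push_cast
      field_simp
      ring
    have hzz : zz ζ = β := by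
      rw [zz, h1ζ, hζ]
      push_cast
      field_simp
    have h1 := GE_const hs ζ
    rw [GE_eq1 hs ζ (by linarith), GG, h1ζ, inv_inv, hzz, ← hc] at h1
    have hsum : Summable fun j => (starRingEnd ℂ) (h j) * (β : ℂ) ^ j := by
      apply Summable.of_norm_bounded (g := fun n => ‖h‖ * ‖(β : ℂ)‖ ^ n)
      · exact (summable_geometric_of_lt_one (norm_nonneg _) hβn).mul_left _
      · intro n
        rw [norm_mul, norm_pow]
        exact mul_le_mul_of_nonneg_right (hle n) (by positivity)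
    have hsa : Summable fun j => a j * (β : ℂ) ^ j := by
      apply Summable.of_norm_bounded (g := fun n => (2 * ‖h‖ + ‖c‖) * ‖(β : ℂ)‖ ^ n)
      · exact (summable_geometric_of_lt_one (norm_nonneg _) hβn).mul_left _
      · intro n
        rw [norm_mul, norm_pow]
        exact mul_le_mul_of_nonneg_right (hbd n) (by positivity)
    have h2 := hsum.tsum_eq_zero_add
    have h3 : ∑' j, (starRingEnd ℂ) (h j) * (β : ℂ) ^ (j + 1) =
        β * ∑' j, (starRingEnd ℂ) (h j) * (β : ℂ) ^ j := by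
      rw [← tsum_mul_left]
      congr 1
      ext j
      ring
    rw [hsa.tsum_eq_zero_add]
    have h4 : ∀ j : ℕ, a (j + 1) * (β : ℂ) ^ (j + 1) = (starRingEnd ℂ) (h (j + 1)) * (β : ℂ) ^ (j + 1) -
        (starRingEnd ℂ) (h j) * (β : ℂ) ^ (j + 1) := by
      intro j
      show ((starRingEnd ℂ) (h (j + 1)) - (starRingEnd ℂ) (h j)) * (β : ℂ) ^ (j + 1) = _
      ring
    simp_rw [h4]
    have hs1 : Summable fun j => (starRingEnd ℂ) (h (j + 1)) * (β : ℂ) ^ (j + 1) :=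
      (summable_nat_add_iff (f := fun j => (starRingEnd ℂ) (h j) * (β : ℂ) ^ j) 1).2 hsum
    have hs2 : Summable fun j => (starRingEnd ℂ) (h j) * (β : ℂ) ^ (j + 1) := by
      refine (hsum.mul_left (β : ℂ)).congr fun j => ?_
      ring
    rw [hs1.tsum_sub hs2, h3]
    have h5 : a 0 * (β : ℂ) ^ 0 = (starRingEnd ℂ) (h 0) - c := by
      rw [pow_zero, mul_one]
      rfl
    rw [h5]
    rw [pow_zero, mul_one] at h2
    set Φ := ∑' j, (starRingEnd ℂ) (h j) * (β : ℂ) ^ j with hΦ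
    have h6 : ∑' j, (starRingEnd ℂ) (h (j + 1)) * (β : ℂ) ^ (j + 1) = Φ - (starRingEnd ℂ) (h 0) := by
      rw [h2]
      ring
    rw [h6]
    linear_combination h1
  have hall := coeff_all a _ hbd (1 / 8) (1 / 4) (by norm_num) (by norm_num) (by norm_num)
    (Or.inl (by norm_num)) hz
  have hc2 : ∀ j, (starRingEnd ℂ) (h j) = c := by
    intro j
    induction j with
    | zero => exact sub_eq_zero.1 (hall 0)
    | succ j ih =>
      rw [← ih]
      exact sub_eq_zero.1 (hall (j + 1))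
  have hsum := (XX_sum h).summable
  have hconst : (fun n => ‖h n‖ ^ 2) = fun _ => ‖c‖ ^ 2 := by
    ext n
    rw [← hc2 n, RCLike.norm_conj]
  rw [hconst, summable_const_iff] at hsum
  have hc0 : c = 0 := by
    rw [← norm_eq_zero]
    exact pow_eq_zero_iff (two_ne_zero) |>.1 hsum
  ext j
  have := hc2 j
  rw [hc0] at this
  exact (map_eq_zero _).1 this

end

end Q88.CC
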