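import Mathlib

/-!
# A one-sided bound on `(-16) ^ k ℓ(u ^ k x)` with `u` close to the identity forces `ℓ(u ^ k x) = 0`
-/

set_option autoImplicit false

open Finset

namespace Q88.CC

variable {V : Type*} [NormedAddCommGroup V] [NormedSpace ℝ V]

theorem sum_one_sub (u : V →L[ℝ] V) (ℓ : V →L[ℝ] ℝ) (x : V) (n : ℕ) :
    ∑ j ∈ range (n + 1), (n.choose j : ℝ) * ((-1) ^ j * ℓ ((u ^ j) x)) =
      ℓ (((1 - u) ^ n) x) := by
  have h1 : (1 - u) ^ n = ∑ j ∈ range (n + 1), ((n.choose j : ℝ) * (-1) ^ j) • u ^ j := by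
    have h2 : (1 : V →L[ℝ] V) - u = -u + 1 := by abel
    rw [h2, (Commute.one_right (-u)).add_pow]
    refine sum_congr rfl fun j _ => ?_
    rw [one_pow, mul_one, neg_pow, mul_smul]
    have h3 : ((-1 : V →L[ℝ] V)) ^ j = ((-1 : ℝ) ^ j) • (1 : V →L[ℝ] V) := by
      rw [← neg_one_smul ℝ (1 : V →L[ℝ] V), smul_pow, one_pow]
    rw [h3, smul_mul_assoc, one_mul, smul_mul_assoc, smul_comm, ← nsmul_eq_mul']
    rw [← Nat.cast_smul_eq_nsmul ℝ]
  rw [h1, _root_.sum_apply, map_sum]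
  refine sum_congr rfl fun j _ => ?_
  rw [_root_.smul_apply, map_smul, smul_eq_mul]
  ring

theorem pow_bound (E : V →L[ℝ] V) (δ : ℝ) (hE : ‖E‖ ≤ δ) (n : ℕ) (x : V) :
    ‖(E ^ n) x‖ ≤ δ ^ n * ‖x‖ := by
  have hδ : 0 ≤ δ := (norm_nonneg _).trans hE
  induction n with
  | zero => simp
  | succ n ih =>
    rw [pow_succ', mul_apply_eq_comp]
    calc ‖E ((E ^ n) x)‖ ≤ ‖E‖ * ‖(E ^ n) x‖ := E.le_opNorm _
      _ ≤ δ * (δ ^ n * ‖x‖) := mul_le_mul hE ih (norm_nonneg _) hδ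
      _ = δ ^ (n + 1) * ‖x‖ := by ring

theorem decay (u : V →L[ℝ] V) (hu : ‖1 - u‖ ≤ 1) (ℓ : V →L[ℝ] ℝ) (x : V) (C : ℝ) (hC : 0 ≤ C)
    (h : ∀ k : ℕ, (-1) ^ k * ℓ ((u ^ k) x) ≤ C * (1 / 16) ^ k) (m : ℕ) :
    |ℓ ((u ^ m) x)| ≤ (‖ℓ‖ * ‖x‖ + C) * (289 / 512) ^ m := by
  set M := ‖ℓ‖ * ‖x‖ with hM
  have hM0 : 0 ≤ M := by positivity
  set e : ℕ → ℝ := fun k => (-1) ^ k * ℓ ((u ^ k) x) with he
  have habs : |ℓ ((u ^ m) x)| = |e m| := by
    simp only [he]
    rw [abs_mul, abs_pow, abs_neg, abs_one, one_pow, one_mul]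
  rw [habs]
  have hsum : -M ≤ ∑ j ∈ range (2 * m + 1), ((2 * m).choose j : ℝ) * e j := by
    rw [sum_one_sub u ℓ x (2 * m)]
    have h1 : |ℓ (((1 - u) ^ (2 * m)) x)| ≤ M := by
      rw [← Real.norm_eq_abs]
      refine (ℓ.le_opNorm _).trans ?_
      have h2 := pow_bound (1 - u) 1 hu (2 * m) x
      rw [one_pow, one_mul] at h2
      exact mul_le_mul_of_nonneg_left h2 (norm_nonneg _)
    exact (abs_le.1 h1).1
  have hbin : ∑ j ∈ range (2 * m + 1), ((2 * m).choose j : ℝ) * (C * (1 / 16) ^ j) =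
      C * (289 / 256) ^ m := by
    have h1 := add_pow (1 / 16 : ℝ) 1 (2 * m)
    have h2 : ((1 / 16 : ℝ) + 1) ^ (2 * m) = (289 / 256) ^ m := by
      rw [pow_mul]
      norm_num
    rw [← h2, h1, mul_sum]
    refine sum_congr rfl fun j _ => ?_
    rw [one_pow]
    ring
  have hmem : m ∈ range (2 * m + 1) := by
    rw [mem_range]
    omega
  have hge1 : (1 : ℝ) ≤ (289 / 256) ^ m := one_le_pow₀ (by norm_num)
  have key : ((2 * m).choose m : ℝ) * |e m| ≤ (M + C) * (289 / 256) ^ m := by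
    have hup : ((2 * m).choose m : ℝ) * e m ≤ C * (289 / 256) ^ m := by
      rw [← hbin]
      refine (mul_le_mul_of_nonneg_left (h m) (by positivity)).trans ?_
      exact single_le_sum (f := fun j => ((2 * m).choose j : ℝ) * (C * (1 / 16) ^ j))
        (fun j _ => by positivity) hmem
    have hlow : -(((2 * m).choose m : ℝ) * e m) ≤ M + C * (289 / 256) ^ m := by
      rw [← add_sum_erase _ _ hmem] at hsum
      have h1 : ∑ j ∈ (range (2 * m + 1)).erase m, ((2 * m).choose j : ℝ) * e j ≤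
          C * (289 / 256) ^ m := by
        rw [← hbin]
        calc ∑ j ∈ (range (2 * m + 1)).erase m, ((2 * m).choose j : ℝ) * e j ≤
            ∑ j ∈ (range (2 * m + 1)).erase m, ((2 * m).choose j : ℝ) * (C * (1 / 16) ^ j) :=
              sum_le_sum fun j _ => mul_le_mul_of_nonneg_left (h j) (by positivity)
          _ ≤ _ := sum_le_sum_of_subset_of_nonneg (erase_subset _ _)
              (fun j _ _ => by positivity)
      linarith
    rcases abs_cases (e m) with ⟨h1, _⟩ | ⟨h1, _⟩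
    · rw [h1]
      nlinarith
    · rw [h1]
      nlinarith
  have hcb : (2 : ℝ) ^ m ≤ ((2 * m).choose m : ℝ) := by
    rcases Nat.eq_zero_or_pos m with hm | hm
    · subst hm
      simp
    · have h1 := Nat.four_pow_le_two_mul_self_mul_centralBinom m hm
      have h2 : 2 * m ≤ 2 ^ m := by
        clear h1 habs hsum hbin hmem hge1 key
        induction m with
        | zero => omega
        | succ m ih =>
          rcases Nat.eq_zero_or_pos m with hm' | hm'
          · subst hm'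
            norm_num
          · have := ih hm'
            rw [pow_succ]
            omega
      have h3 : 2 ^ m * 2 ^ m ≤ 2 ^ m * m.centralBinom := by
        calc 2 ^ m * 2 ^ m = 4 ^ m := by rw [← mul_pow]; norm_num
          _ ≤ 2 * m * m.centralBinom := h1
          _ ≤ 2 ^ m * m.centralBinom := Nat.mul_le_mul_right _ h2
      have h4 : 2 ^ m ≤ m.centralBinom := Nat.le_of_mul_le_mul_left h3 (by positivity)
      rw [Nat.centralBinom_eq_two_mul_choose] at h4
      exact_mod_cast h4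
  have h5 : (2 : ℝ) ^ m * |e m| ≤ (M + C) * (289 / 256) ^ m :=
    (mul_le_mul_of_nonneg_right hcb (abs_nonneg _)).trans key
  have h6 : (289 / 512 : ℝ) ^ m * 2 ^ m = (289 / 256) ^ m := by
    rw [← mul_pow]
    norm_num
  have h7 : (0 : ℝ) < 2 ^ m := by positivity
  rw [← h6] at h5
  have h8 : (2 : ℝ) ^ m * |e m| ≤ 2 ^ m * ((M + C) * (289 / 512) ^ m) := by linarith
  exact le_of_mul_le_mul_left h8 h7

theorem mixed_bound (v : V →L[ℝ] V) (ℓ : V →L[ℝ] ℝ) (y : V) (K : ℝ)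
    (h : ∀ j : ℕ, |ℓ ((v ^ j) y)| ≤ K * (1 / 16) ^ j) (b a : ℕ) :
    |ℓ ((v ^ a * (1 - v) ^ b) y)| ≤ K * (1 / 16) ^ a * (17 / 16) ^ b := by
  induction b generalizing a with
  | zero =>
    rw [pow_zero, mul_one, pow_zero, mul_one]
    exact h a
  | succ b ih =>
    have h1 : v ^ a * (1 - v) ^ (b + 1) = v ^ a * (1 - v) ^ b - v ^ (a + 1) * (1 - v) ^ b := by
      have hc : Commute v (1 - v) := (Commute.one_right v).sub_right (Commute.refl v)
      rw [pow_succ, pow_succ, ← mul_assoc, mul_sub, mul_one]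
      congr 1
      rw [mul_assoc, mul_assoc, (hc.pow_right b).eq]
    rw [h1, _root_.sub_apply, map_sub]
    refine (abs_sub _ _).trans ?_
    have h2 := ih a
    have h3 := ih (a + 1)
    have h4 : K * (1 / 16) ^ a * (17 / 16) ^ (b + 1) = K * (1 / 16) ^ a * (17 / 16) ^ b +
        K * (1 / 16) ^ (a + 1) * (17 / 16) ^ b := by ring
    rw [h4]
    exact add_le_add h2 h3

theorem vanish (v : V →L[ℝ] V) (hv : ‖1 - v‖ ≤ 1 / 16) (ℓ : V →L[ℝ] ℝ) (y : V) (K : ℝ)
    (hK : 0 ≤ K) (h : ∀ j : ℕ, |ℓ ((v ^ j) y)| ≤ K * (1 / 16) ^ j) : ℓ y = 0 := by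
  set M := ‖ℓ‖ * ‖y‖ with hM
  have hM0 : 0 ≤ M := by positivity
  have hone : ‖(1 : V →L[ℝ] V)‖ ≤ 1 := ContinuousLinearMap.norm_id_le
  have hvn : ‖v‖ ≤ 17 / 16 := by
    have : v = 1 - (1 - v) := by abel
    rw [this]
    refine (norm_sub_le _ _).trans ?_
    linarith
  have hop : ∀ a b : ℕ, |ℓ ((v ^ a * (1 - v) ^ b) y)| ≤ M * (17 / 16) ^ a * (1 / 16) ^ b := by
    intro a b
    rw [← Real.norm_eq_abs, mul_apply_eq_comp]
    refine (ℓ.le_opNorm _).trans ?_
    have h1 := pow_bound v (17 / 16) hvn a (((1 - v) ^ b) y)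
    have h2 := pow_bound (1 - v) (1 / 16) hv b y
    calc ‖ℓ‖ * ‖(v ^ a) (((1 - v) ^ b) y)‖ ≤ ‖ℓ‖ * ((17 / 16) ^ a * ((1 / 16) ^ b * ‖y‖)) := by
          apply mul_le_mul_of_nonneg_left _ (norm_nonneg _)
          exact h1.trans (mul_le_mul_of_nonneg_left h2 (by positivity))
      _ = M * (17 / 16) ^ a * (1 / 16) ^ b := by
          rw [hM]
          ring
  have hterm : ∀ n j : ℕ, j ∈ range (2 * n + 1) →
      |ℓ ((v ^ j * (1 - v) ^ (2 * n - j)) y)| ≤ (K + M) * (17 / 256) ^ n := by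
    intro n j hj
    rw [mem_range] at hj
    have h0 : (17 / 256 : ℝ) ^ n = (17 / 16) ^ n * (1 / 16) ^ n := by
      rw [← mul_pow]
      norm_num
    rcases le_or_gt n j with hnj | hnj
    · refine (mixed_bound v ℓ y K h (2 * n - j) j).trans ?_
      have h1 : (1 / 16 : ℝ) ^ j ≤ (1 / 16) ^ n :=
        pow_le_pow_of_le_one (by norm_num) (by norm_num) hnj
      have h2 : (17 / 16 : ℝ) ^ (2 * n - j) ≤ (17 / 16) ^ n :=
        pow_le_pow_right₀ (by norm_num) (by omega)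
      have h3 : (1 / 16 : ℝ) ^ j * (17 / 16) ^ (2 * n - j) ≤ (1 / 16) ^ n * (17 / 16) ^ n :=
        mul_le_mul h1 h2 (by positivity) (by positivity)
      have h4 := mul_le_mul_of_nonneg_left h3 hK
      have h5 : 0 ≤ M * (17 / 256 : ℝ) ^ n := by positivity
      rw [add_mul]
      rw [h0] at h5 ⊢
      linarith
    · refine (hop j (2 * n - j)).trans ?_
      have h1 : (17 / 16 : ℝ) ^ j ≤ (17 / 16) ^ n := pow_le_pow_right₀ (by norm_num) hnj.le
      have h2 : (1 / 16 : ℝ) ^ (2 * n - j) ≤ (1 / 16) ^ n :=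
        pow_le_pow_of_le_one (by norm_num) (by norm_num) (by omega)
      have h3 : (17 / 16 : ℝ) ^ j * (1 / 16) ^ (2 * n - j) ≤ (17 / 16) ^ n * (1 / 16) ^ n :=
        mul_le_mul h1 h2 (by positivity) (by positivity)
      have h4 := mul_le_mul_of_nonneg_left h3 hM0
      have h5 : 0 ≤ K * (17 / 256 : ℝ) ^ n := by positivity
      rw [add_mul]
      rw [h0] at h5 ⊢
      linarith
  have hall : ∀ n : ℕ, |ℓ y| ≤ (K + M) * (17 / 64) ^ n := by
    intro n
    have hc : Commute v (1 - v) := (Commute.one_right v).sub_right (Commute.refl v)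
    have h1 := hc.add_pow (2 * n)
    have h2 : v + (1 - v) = 1 := by abel
    rw [h2, one_pow] at h1
    have h3 : ℓ y = ∑ j ∈ range (2 * n + 1),
        ((2 * n).choose j : ℝ) * ℓ ((v ^ j * (1 - v) ^ (2 * n - j)) y) := by
      have h4 : y = (1 : V →L[ℝ] V) y := rfl
      conv_lhs => rw [h4, h1, _root_.sum_apply, map_sum]
      refine sum_congr rfl fun j _ => ?_
      rw [← nsmul_eq_mul', ← Nat.cast_smul_eq_nsmul ℝ, _root_.smul_apply, map_smul, smul_eq_mul]
    rw [h3]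
    refine (abs_sum_le_sum_abs _ _).trans ?_
    calc ∑ j ∈ range (2 * n + 1), |((2 * n).choose j : ℝ) * ℓ ((v ^ j * (1 - v) ^ (2 * n - j)) y)| ≤
        ∑ j ∈ range (2 * n + 1), ((2 * n).choose j : ℝ) * ((K + M) * (17 / 256) ^ n) := by
          refine sum_le_sum fun j hj => ?_
          rw [abs_mul, Nat.abs_cast]
          exact mul_le_mul_of_nonneg_left (hterm n j hj) (by positivity)
      _ = (K + M) * (17 / 64) ^ n := by
          rw [← sum_mul]
          have h5 := Nat.sum_range_choose (2 * n)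
          have h6 : ∑ j ∈ range (2 * n + 1), ((2 * n).choose j : ℝ) = 4 ^ n := by
            have : ((∑ j ∈ range (2 * n + 1), (2 * n).choose j : ℕ) : ℝ) = ((2 ^ (2 * n) : ℕ) : ℝ) := by
              rw [h5]
            push_cast at this
            rw [this, pow_mul]
            norm_num
          rw [h6]
          have h7 : (17 / 64 : ℝ) ^ n = 4 ^ n * (17 / 256) ^ n := by
            rw [← mul_pow]
            norm_num
          rw [h7]
          ring
  have hlim : Filter.Tendsto (fun n : ℕ => (K + M) * (17 / 64 : ℝ) ^ n) Filter.atTop (nhds 0) := by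
    have := (tendsto_pow_atTop_nhds_zero_of_lt_one (r := (17 / 64 : ℝ)) (by norm_num)
      (by norm_num)).const_mul (K + M)
    rwa [mul_zero] at this
  have h0 := ge_of_tendsto' hlim hall
  exact abs_eq_zero.1 (le_antisymm h0 (abs_nonneg _))

/-- If `u` is close to the identity and `(-16) ^ k ℓ(u ^ k x)` is bounded above then
`ℓ(u ^ k x) = 0` for all `k`. -/
theorem zero_of_bdd (u : V →L[ℝ] V) (hu : ‖1 - u‖ ≤ 1 / 100) (ℓ : V →L[ℝ] ℝ) (x : V) (C : ℝ)
    (h : ∀ k : ℕ, (-16) ^ k * ℓ ((u ^ k) x) ≤ C) (i : ℕ) : ℓ ((u ^ i) x) = 0 := by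
  have h1 : ∀ k : ℕ, (-1) ^ k * ℓ ((u ^ k) x) ≤ max C 0 * (1 / 16) ^ k := by
    intro k
    have h2 := (h k).trans (le_max_left C 0)
    have h3 : (-16 : ℝ) ^ k = (-1) ^ k * 16 ^ k := by
      rw [← mul_pow]
      norm_num
    have h4 : (1 / 16 : ℝ) ^ k * 16 ^ k = 1 := by
      rw [← mul_pow]
      norm_num
    have h5 : (0 : ℝ) ≤ (1 / 16) ^ k := by positivity
    have h6 := mul_le_mul_of_nonneg_left h2 h5
    rw [h3] at h6
    have h7 : (1 / 16 : ℝ) ^ k * ((-1) ^ k * 16 ^ k * ℓ ((u ^ k) x)) =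
        ((1 / 16 : ℝ) ^ k * 16 ^ k) * ((-1) ^ k * ℓ ((u ^ k) x)) := by ring
    rw [h7, h4, one_mul] at h6
    linarith
  have h2 := decay u (hu.trans (by norm_num)) ℓ x (max C 0) (le_max_right _ _) h1
  have hone : ‖(1 : V →L[ℝ] V)‖ ≤ 1 := ContinuousLinearMap.norm_id_le
  have hv : ‖1 - u ^ 5‖ ≤ 1 / 16 := by
    set E := 1 - u with hE
    have hu' : u = 1 - E := by rw [hE]; abel
    have hE0 := norm_nonneg E
    have e1 : 1 - u ^ 5 = E * (1 + u + u ^ 2 + u ^ 3 + u ^ 4) := by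
      rw [hE]
      noncomm_ring
    have hun : ‖u‖ ≤ 101 / 100 := by
      rw [hu']
      refine (norm_sub_le _ _).trans ?_
      linarith
    have hup : ∀ n : ℕ, ‖u ^ n‖ ≤ (101 / 100) ^ n := by
      intro n
      refine ContinuousLinearMap.opNorm_le_bound _ (by positivity) fun x => ?_
      exact pow_bound u (101 / 100) hun n x
    rw [e1]
    refine (norm_mul_le _ _).trans ?_
    have h3 : ‖1 + u + u ^ 2 + u ^ 3 + u ^ 4‖ ≤ 6 := by
      have a1 := norm_add_le (1 + u + u ^ 2 + u ^ 3) (u ^ 4)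
      have a2 := norm_add_le (1 + u + u ^ 2) (u ^ 3)
      have a3 := norm_add_le (1 + u) (u ^ 2)
      have a4 := norm_add_le 1 u
      have b2 := hup 2
      have b3 := hup 3
      have b4 := hup 4
      norm_num at b2 b3 b4
      linarith
    calc ‖E‖ * ‖1 + u + u ^ 2 + u ^ 3 + u ^ 4‖ ≤ 1 / 100 * 6 :=
          mul_le_mul hu h3 (norm_nonneg _) (by norm_num)
      _ ≤ 1 / 16 := by norm_num
  refine vanish (u ^ 5) hv ℓ ((u ^ i) x) (‖ℓ‖ * ‖x‖ + max C 0)
    (add_nonneg (by positivity) (le_max_right _ _)) fun j => ?_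
  have h3 : ((u ^ 5) ^ j) ((u ^ i) x) = (u ^ (5 * j + i)) x := by
    rw [← pow_mul, ← mul_apply_eq_comp, ← pow_add]
  rw [h3]
  refine (h2 _).trans ?_
  apply mul_le_mul_of_nonneg_left _ (add_nonneg (by positivity) (le_max_right _ _))
  rw [pow_add, pow_mul]
  have h4 : ((289 / 512 : ℝ) ^ 5) ^ j ≤ (1 / 16) ^ j :=
    pow_le_pow_left₀ (by positivity) (by norm_num) j
  have h5 : (289 / 512 : ℝ) ^ i ≤ 1 := pow_le_one₀ (by norm_num) (by norm_num)
  calc ((289 / 512 : ℝ) ^ 5) ^ j * (289 / 512) ^ i ≤ (1 / 16) ^ j * 1 :=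
        mul_le_mul h4 h5 (by positivity) (by positivity)
    _ = (1 / 16) ^ j := mul_one _

end Q88.CC
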