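import Mathlib
import Pool.Agent.Q88.CC.Jen

/-!
# The oscillatory estimate
-/

set_option autoImplicit false

open Filter Topology MeasureTheory

namespace Q88.CC

/-- the parameter -/
noncomputable def ep : ℝ := 1 / 200

/-- the boundary symbol `1 - i ε (1 - e^{iθ})` -/
noncomputable def xi (θ : ℝ) : ℂ := 1 - Complex.I * ep * (1 - Complex.exp (Complex.I * θ))

theorem xi_eq (θ : ℝ) : xi θ = ((1 - ep * Real.sin θ : ℝ) : ℂ) +
    ((-(ep * (1 - Real.cos θ)) : ℝ) : ℂ) * Complex.I := by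
  rw [xi, mul_comm Complex.I (θ : ℂ), Complex.exp_mul_I, ← Complex.ofReal_cos, ← Complex.ofReal_sin]
  push_cast
  have := Complex.I_mul_I
  linear_combination ep * Complex.sin θ * this

theorem xi_re (θ : ℝ) : (xi θ).re = 1 - ep * Real.sin θ := by
  rw [xi_eq, Complex.add_re, Complex.ofReal_re, Complex.re_ofReal_mul, Complex.I_re, mul_zero,
    add_zero]

theorem xi_im (θ : ℝ) : (xi θ).im = -(ep * (1 - Real.cos θ)) := by
  rw [xi_eq, Complex.add_im, Complex.ofReal_im, Complex.im_ofReal_mul, Complex.I_im, mul_one,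
    zero_add]

/-- the square of the modulus of the symbol -/
noncomputable def qq (θ : ℝ) : ℝ := 1 - 2 * ep * Real.sin θ + 2 * ep ^ 2 * (1 - Real.cos θ)

theorem xi_norm_sq (θ : ℝ) : ‖xi θ‖ ^ 2 = qq θ := by
  rw [← Complex.normSq_eq_norm_sq, Complex.normSq_apply, xi_re, xi_im, qq]
  have := Real.sin_sq_add_cos_sq θ
  linear_combination (ep ^ 2) * this

theorem xi_cont : Continuous xi := by
  unfold xi
  fun_prop

theorem qq_anti : AntitoneOn qq (Set.Icc 0 1) := by
  have hd : ∀ θ, HasDerivAt qq (-(2 * ep * Real.cos θ) + 2 * ep ^ 2 * Real.sin θ) θ := by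
    intro θ
    have h1 := ((Real.hasDerivAt_sin θ).const_mul (2 * ep)).const_sub 1
    have h2 := ((Real.hasDerivAt_cos θ).const_sub 1).const_mul (2 * ep ^ 2)
    have h3 := h1.add h2
    refine h3.congr_deriv ?_
    ring
  apply antitoneOn_of_deriv_nonpos (convex_Icc 0 1)
  · exact fun θ _ => (hd θ).continuousAt.continuousWithinAt
  · exact fun θ _ => (hd θ).differentiableAt.differentiableWithinAt
  · intro θ hθ
    rw [interior_Icc] at hθ
    rw [(hd θ).deriv]
    have h1 : 1 / 2 ≤ Real.cos θ := by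
      have := Real.one_sub_sq_div_two_le_cos (x := θ)
      nlinarith [hθ.1, hθ.2]
    have h2 : Real.sin θ ≤ 1 := Real.sin_le_one θ
    unfold ep
    nlinarith

theorem qq_le_one (θ : ℝ) (h0 : 0 ≤ θ) (h1 : θ ≤ 1) : qq θ ≤ 1 := by
  have h := qq_anti (Set.left_mem_Icc.2 zero_le_one) (Set.mem_Icc.2 ⟨h0, h1⟩) h0
  have h2 : qq 0 = 1 := by simp [qq]
  rwa [h2] at h

theorem qq_ge (θ : ℝ) : 49 / 50 ≤ qq θ := by
  unfold qq ep
  have h1 := Real.sin_le_one θ
  have h2 := Real.cos_le_one θ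
  nlinarith

theorem qq_drop (t : ℝ) (h0 : 0 < t) (h1 : t ≤ 1 / 4) : qq (2 * t) ≤ qq t * (1 - ep * t) := by
  have hs1 : t - t ^ 3 / 4 < Real.sin t := by
    have h := Real.sin_gt_sub_cube h0
    have h' : 0 < t ^ 3 := by positivity
    linarith
  have hs2 : Real.sin t < t := Real.sin_lt h0
  have hc1 : 1 - t ^ 2 / 2 ≤ Real.cos t := Real.one_sub_sq_div_two_le_cos
  have hc2 := Real.cos_le_one t
  have h2t : Real.sin (2 * t) = 2 * Real.sin t * Real.cos t := Real.sin_two_mul t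
  have hc2t : Real.cos (2 * t) = 2 * Real.cos t ^ 2 - 1 := Real.cos_two_mul t
  have hq1 : qq t ≤ 1 := qq_le_one t h0.le (by linarith)
  have hsin0 : 0 < Real.sin t := by nlinarith [sq_nonneg t, mul_pos h0 h0]
  have key : 9 / 10 * t ≤ Real.sin (2 * t) - Real.sin t := by
    rw [h2t]
    have h3 : 2 * Real.sin t * Real.cos t - Real.sin t = Real.sin t * (2 * Real.cos t - 1) := by ring
    rw [h3]
    have h4 : 1 - t ^ 2 ≤ 2 * Real.cos t - 1 := by linarith
    have h5 : 0 ≤ 1 - t ^ 2 := by nlinarith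
    have h6 : (t - t ^ 3 / 4) * (1 - t ^ 2) ≤ Real.sin t * (2 * Real.cos t - 1) :=
      mul_le_mul hs1.le h4 h5 hsin0.le
    have h7 : 9 / 10 * t ≤ (t - t ^ 3 / 4) * (1 - t ^ 2) := by
      have : (t - t ^ 3 / 4) * (1 - t ^ 2) - 9 / 10 * t =
        t * (1 / 10 - t ^ 2 * (5 / 4) + t ^ 4 / 4) := by ring
      nlinarith [mul_nonneg h0.le (by nlinarith [sq_nonneg t, pow_nonneg h0.le 4] :
        (0 : ℝ) ≤ 1 / 10 - t ^ 2 * (5 / 4) + t ^ 4 / 4)]
    linarith
  have key2 : Real.cos t - Real.cos (2 * t) ≤ 2 * t ^ 2 := by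
    have h8 : 1 - (2 * t) ^ 2 / 2 ≤ Real.cos (2 * t) := Real.one_sub_sq_div_two_le_cos
    nlinarith
  have h9 : qq (2 * t) = qq t - 2 * ep * (Real.sin (2 * t) - Real.sin t) +
      2 * ep ^ 2 * (Real.cos t - Real.cos (2 * t)) := by
    unfold qq
    ring
  rw [h9]
  have he : 0 < ep := by unfold ep; norm_num
  have h10 : ep * t * qq t ≤ ep * t := mul_le_of_le_one_right (by positivity) hq1
  have h11 : 2 * ep ^ 2 * (Real.cos t - Real.cos (2 * t)) ≤ 2 * ep ^ 2 * (2 * t ^ 2) :=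
    mul_le_mul_of_nonneg_left key2 (by positivity)
  have h12 : 2 * ep * (9 / 10 * t) ≤ 2 * ep * (Real.sin (2 * t) - Real.sin t) :=
    mul_le_mul_of_nonneg_left key (by positivity)
  have h13 : 2 * ep ^ 2 * (2 * t ^ 2) ≤ ep * t * (8 / 10) := by
    have h14 : ep * t ≤ 1 / 800 := by unfold ep; nlinarith
    have h15 : 0 ≤ ep * t := by positivity
    nlinarith
  nlinarith

theorem abs_arg_le (z : ℂ) (hz : 0 ≤ z.re) (hz0 : 0 < ‖z‖) :
    |Complex.arg z| ≤ Real.pi / 2 * (|z.im| / ‖z‖) := by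
  have h1 : |Complex.arg z| ≤ Real.pi / 2 := Complex.abs_arg_le_pi_div_two_iff.2 hz
  have h2 := Real.mul_le_sin (abs_nonneg (Complex.arg z)) h1
  have h3 : Real.sin |Complex.arg z| = |z.im| / ‖z‖ := by
    have h4 : |Real.sin (Complex.arg z)| = |z.im| / ‖z‖ := by
      rw [Complex.sin_arg, abs_div, abs_norm]
    rw [← h4]
    rcases abs_cases (Complex.arg z) with ⟨h5, h6⟩ | ⟨h5, h6⟩
    · rw [h5, abs_of_nonneg]
      apply Real.sin_nonneg_of_nonneg_of_le_pi h6
      rw [h5] at h1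
      linarith [Real.pi_pos]
    · rw [h5, Real.sin_neg, abs_of_nonpos]
      apply Real.sin_nonpos_of_nonpos_of_neg_pi_le h6.le
      rw [h5] at h1
      linarith [Real.pi_pos]
  rw [h3] at h2
  have hpi := Real.pi_pos
  have h5 := mul_le_mul_of_nonneg_left h2 (by positivity : 0 ≤ Real.pi / 2)
  have h6 : Real.pi / 2 * (2 / Real.pi * |Complex.arg z|) = |Complex.arg z| := by
    field_simp
  rwa [h6] at h5

theorem re_pow (k : ℕ) (t : ℝ) (ht : 0 ≤ t) (hk : k * (ep * t ^ 2) ≤ 1 / 4) (θ : ℝ)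
    (h0 : 0 ≤ θ) (h1 : θ ≤ 2 * t) : 1 / 2 * ‖xi θ‖ ^ k ≤ (xi θ ^ k).re := by
  set z := xi θ with hz
  have hq := qq_ge θ
  rw [← xi_norm_sq, ← hz] at hq
  have hzn : 9 / 10 ≤ ‖z‖ := by nlinarith [norm_nonneg z]
  have hz0 : 0 < ‖z‖ := by linarith
  have hzre : 0 ≤ z.re := by
    rw [hz, xi_re]
    have := Real.sin_le_one θ
    unfold ep
    linarith
  have him : |z.im| ≤ ep * (2 * t ^ 2) := by
    rw [hz, xi_im, abs_neg, abs_of_nonneg]
    · apply mul_le_mul_of_nonneg_left _ (by unfold ep; norm_num)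
      have := Real.one_sub_sq_div_two_le_cos (x := θ)
      nlinarith
    · have := Real.cos_le_one θ
      unfold ep
      linarith
  have harg := abs_arg_le z hzre hz0
  have he : 0 < ep := by unfold ep; norm_num
  have harg2 : |Complex.arg z| ≤ 4 * (ep * t ^ 2) := by
    refine harg.trans ?_
    have h3 : |z.im| / ‖z‖ ≤ ep * (2 * t ^ 2) / (9 / 10) :=
      div_le_div₀ (by positivity) him (by norm_num) hzn
    have h4 : Real.pi / 2 ≤ 8 / 5 := by
      have := Real.pi_lt_d2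
      linarith
    have h5 : 0 ≤ |z.im| / ‖z‖ := by positivity
    calc Real.pi / 2 * (|z.im| / ‖z‖) ≤ 8 / 5 * (ep * (2 * t ^ 2) / (9 / 10)) :=
          mul_le_mul h4 h3 h5 (by norm_num)
      _ ≤ 4 * (ep * t ^ 2) := by
          have : 0 ≤ ep * t ^ 2 := by positivity
          linarith
  have hka : |(k : ℝ) * Complex.arg z| ≤ 1 := by
    rw [abs_mul, Nat.abs_cast]
    have := mul_le_mul_of_nonneg_left harg2 (Nat.cast_nonneg k : (0 : ℝ) ≤ k)
    linarith
  have hcos : 1 / 2 ≤ Real.cos (k * Complex.arg z) := by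
    have h6 := Real.one_sub_sq_div_two_le_cos (x := k * Complex.arg z)
    have h7 : (k * Complex.arg z) ^ 2 ≤ 1 := by
      rw [← sq_abs]
      exact pow_le_one₀ (abs_nonneg _) hka
    linarith
  have hpow : (z ^ k).re = ‖z‖ ^ k * Real.cos (k * Complex.arg z) := by
    conv_lhs => rw [← Complex.norm_mul_exp_arg_mul_I z]
    rw [mul_pow, ← Complex.exp_nat_mul, ← Complex.ofReal_pow, Complex.re_ofReal_mul]
    congr 1
    have h8 : (k : ℂ) * (Complex.arg z * Complex.I) = ((k * Complex.arg z : ℝ) : ℂ) * Complex.I := by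
      push_cast
      ring
    rw [h8, Complex.exp_ofReal_mul_I_re]
  rw [hpow]
  have h9 : 0 ≤ ‖z‖ ^ k := by positivity
  nlinarith

theorem xi_norm_le (θ : ℝ) : ‖xi θ‖ ≤ 2 := by
  have h1 : ‖xi θ‖ ^ 2 ≤ 4 := by
    rw [xi_norm_sq, qq]
    have h1 := Real.neg_one_le_sin θ
    have h2 := Real.neg_one_le_cos θ
    unfold ep
    linarith
  nlinarith [norm_nonneg (xi θ)]

theorem bdd_int (f : ℝ → ℝ) (hf : Measurable f) (C : ℝ) (h : ∀ θ, |f θ| ≤ C) (a b : ℝ) :
    IntervalIntegrable f volume a b := by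
  have h1 : ∀ a b : ℝ, IntegrableOn f (Set.Ioc a b) volume := by
    intro a b
    apply Measure.integrableOn_of_bounded (M := C)
    · exact measure_Ioc_lt_top.ne
    · exact hf.aestronglyMeasurable
    · exact Eventually.of_forall fun θ => by
        rw [Real.norm_eq_abs]
        exact h θ
  exact ⟨h1 a b, h1 b a⟩

theorem osc (W : ℝ → ℝ) (hWm : Measurable W) (hW0 : ∀ θ, 0 ≤ W θ) (hW1 : ∀ θ, W θ ≤ 1)
    (hLB : ∃ t0 : ℝ, 0 < t0 ∧ ∀ t, 0 < t → t < t0 →
      t / 2 * Real.exp (-(1 / 16 / t)) ≤ ∫ θ in (0 : ℝ)..t, W θ) :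
    ∃ C : ℝ, ∀ k : ℕ, -C ≤ 16 ^ k * ∫ θ in (0 : ℝ)..1, (xi θ ^ k).re * W θ := by
  obtain ⟨t0, ht0, hLB⟩ := hLB
  have he : 0 < ep := by unfold ep; norm_num
  have hI : ∀ k : ℕ, Measurable fun θ => (xi θ ^ k).re * W θ := fun k =>
    (Complex.measurable_re.comp ((xi_cont.pow k).measurable)).mul hWm
  have hIb : ∀ k : ℕ, ∀ θ, |(xi θ ^ k).re * W θ| ≤ 2 ^ k := by
    intro k θ
    rw [abs_mul, abs_of_nonneg (hW0 θ)]
    have h1 : |(xi θ ^ k).re| ≤ 2 ^ k := by
      refine (Complex.abs_re_le_norm _).trans ?_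
      rw [norm_pow]
      exact pow_le_pow_left₀ (norm_nonneg _) (xi_norm_le θ) k
    calc |(xi θ ^ k).re| * W θ ≤ 2 ^ k * 1 := mul_le_mul h1 (hW1 θ) (hW0 θ) (by positivity)
      _ = 2 ^ k := mul_one _
  have hii : ∀ (k : ℕ) a b, IntervalIntegrable (fun θ => (xi θ ^ k).re * W θ) volume a b :=
    fun k a b => bdd_int _ (hI k) _ (hIb k) a b
  have hWi : ∀ a b, IntervalIntegrable W volume a b := fun a b =>
    bdd_int _ hWm 1 (fun θ => by rw [abs_of_nonneg (hW0 θ)]; exact hW1 θ) a b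
  have key : ∃ k0 : ℕ, ∀ k : ℕ, k0 ≤ k → 0 ≤ ∫ θ in (0 : ℝ)..1, (xi θ ^ k).re * W θ := by
    have hlim : Tendsto (fun k : ℕ => 1 / (2 * √(k * ep))) atTop (𝓝 0) := by
      have h1 : Tendsto (fun k : ℕ => (k : ℝ) * ep) atTop atTop :=
        tendsto_natCast_atTop_atTop.atTop_mul_const he
      have h2 : Tendsto (fun k : ℕ => 2 * √((k : ℝ) * ep)) atTop atTop :=
        (Real.tendsto_sqrt_atTop.comp h1).const_mul_atTop two_pos
      exact h2.const_div_atTop 1
    have hev : ∀ᶠ k : ℕ in atTop, 1 / (2 * √(k * ep)) < min t0 (1 / 2048) :=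
      hlim.eventually_lt_const (by positivity)
    obtain ⟨k0, hk0⟩ := eventually_atTop.1 (hev.and (eventually_gt_atTop 0))
    refine ⟨k0, fun k hk => ?_⟩
    obtain ⟨h1, h2⟩ := hk0 k hk
    set t : ℝ := 1 / (2 * √(k * ep)) with ht
    have hkpos : (0 : ℝ) < k := by exact_mod_cast h2
    have hke : 0 < (k : ℝ) * ep := by positivity
    have hsq : 0 < √((k : ℝ) * ep) := Real.sqrt_pos.2 hke
    have htpos : 0 < t := by positivity
    have htt0 : t < t0 := h1.trans_le (min_le_left _ _)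
    have ht2 : t < 1 / 2048 := h1.trans_le (min_le_right _ _)
    have hkt : (k : ℝ) * (ep * t ^ 2) = 1 / 4 := by
      have h3 : t ^ 2 = 1 / (4 * (k * ep)) := by
        rw [ht, div_pow, mul_pow, Real.sq_sqrt hke.le]
        norm_num
      rw [h3]
      field_simp
    set s : ℝ := √(qq t) with hs
    have hqt : 0 < qq t := lt_of_lt_of_le (by norm_num) (qq_ge t)
    have hs0 : 0 < s := Real.sqrt_pos.2 hqt
    have hs2 : s ^ 2 = qq t := Real.sq_sqrt hqt.le
    have hA : ∀ θ ∈ Set.Icc 0 t, 1 / 2 * s ^ k * W θ ≤ (xi θ ^ k).re * W θ := by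
      intro θ hθ
      apply mul_le_mul_of_nonneg_right _ (hW0 θ)
      have h3 := re_pow k t htpos.le hkt.le θ hθ.1 (by linarith [hθ.2])
      have h4 : s ≤ ‖xi θ‖ := by
        apply le_of_sq_le_sq _ (norm_nonneg _)
        rw [hs2, xi_norm_sq]
        exact qq_anti (Set.mem_Icc.2 ⟨hθ.1, by linarith [hθ.2]⟩)
          (Set.mem_Icc.2 ⟨htpos.le, by linarith⟩) hθ.2
      have h5 : s ^ k ≤ ‖xi θ‖ ^ k := pow_le_pow_left₀ hs0.le h4 k
      linarith
    have hB : ∀ θ ∈ Set.Icc t (2 * t), 0 ≤ (xi θ ^ k).re * W θ := by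
      intro θ hθ
      apply mul_nonneg _ (hW0 θ)
      have h3 := re_pow k t htpos.le hkt.le θ (by linarith [hθ.1]) hθ.2
      have : 0 ≤ ‖xi θ‖ ^ k := by positivity
      linarith
    have hC : ∀ θ ∈ Set.Icc (2 * t) 1, -(s ^ k * Real.exp (-(1 / 8 / t))) ≤
        (xi θ ^ k).re * W θ := by
      intro θ hθ
      have h3 : ‖xi θ‖ ≤ s * Real.exp (-(ep * t / 2)) := by
        apply le_of_sq_le_sq _ (by positivity)
        rw [xi_norm_sq, mul_pow, hs2, ← Real.exp_nat_mul]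
        have h4 : qq θ ≤ qq (2 * t) := qq_anti (Set.mem_Icc.2 ⟨by linarith, by linarith⟩)
          (Set.mem_Icc.2 ⟨by linarith [hθ.1], hθ.2⟩) hθ.1
        refine h4.trans ((qq_drop t htpos (by linarith)).trans ?_)
        apply mul_le_mul_of_nonneg_left _ hqt.le
        have h5 := Real.add_one_le_exp (-(ep * t))
        have h6 : ((2 : ℕ) : ℝ) * -(ep * t / 2) = -(ep * t) := by
          push_cast
          ring
        rw [h6]
        linarith
      have h4 : ‖xi θ‖ ^ k ≤ s ^ k * Real.exp (-(1 / 8 / t)) := by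
        refine (pow_le_pow_left₀ (norm_nonneg _) h3 k).trans (le_of_eq ?_)
        rw [mul_pow, ← Real.exp_nat_mul]
        congr 2
        have h7 : (k : ℝ) * (ep * t) = 1 / 4 / t := by
          rw [eq_div_iff htpos.ne', ← hkt]
          ring
        have h8 : (k : ℝ) * -(ep * t / 2) = -((k * (ep * t)) / 2) := by ring
        rw [h8, h7]
        ring
      have h5 : |(xi θ ^ k).re * W θ| ≤ s ^ k * Real.exp (-(1 / 8 / t)) := by
        rw [abs_mul, abs_of_nonneg (hW0 θ)]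
        have h6 : |(xi θ ^ k).re| ≤ s ^ k * Real.exp (-(1 / 8 / t)) := by
          refine (Complex.abs_re_le_norm _).trans ?_
          rw [norm_pow]
          exact h4
        calc |(xi θ ^ k).re| * W θ ≤ (s ^ k * Real.exp (-(1 / 8 / t))) * 1 :=
              mul_le_mul h6 (hW1 θ) (hW0 θ) (by positivity)
          _ = _ := mul_one _
      exact (abs_le.1 h5).1
    have i1 : 1 / 2 * s ^ k * ∫ θ in (0 : ℝ)..t, W θ ≤
        ∫ θ in (0 : ℝ)..t, (xi θ ^ k).re * W θ := by
      rw [← intervalIntegral.integral_const_mul]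
      exact intervalIntegral.integral_mono_on htpos.le ((hWi 0 t).const_mul _) (hii k 0 t) hA
    have i2 : 0 ≤ ∫ θ in t..(2 * t), (xi θ ^ k).re * W θ :=
      intervalIntegral.integral_nonneg (by linarith) hB
    have i3 : -(s ^ k * Real.exp (-(1 / 8 / t))) ≤
        ∫ θ in (2 * t)..1, (xi θ ^ k).re * W θ := by
      have h3 := intervalIntegral.integral_mono_on (by linarith : 2 * t ≤ 1)
        (f := fun _ => -(s ^ k * Real.exp (-(1 / 8 / t)))) (by simp) (hii k (2 * t) 1) hC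
      rw [intervalIntegral.integral_const, smul_eq_mul] at h3
      have h4 : 0 ≤ s ^ k * Real.exp (-(1 / 8 / t)) := by positivity
      nlinarith
    have hsplit : ∫ θ in (0 : ℝ)..1, (xi θ ^ k).re * W θ =
        (∫ θ in (0 : ℝ)..t, (xi θ ^ k).re * W θ) + (∫ θ in t..(2 * t), (xi θ ^ k).re * W θ) +
        ∫ θ in (2 * t)..1, (xi θ ^ k).re * W θ := by
      rw [intervalIntegral.integral_add_adjacent_intervals (hii k 0 t) (hii k t (2 * t)),
        intervalIntegral.integral_add_adjacent_intervals (hii k 0 (2 * t)) (hii k (2 * t) 1)]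
    rw [hsplit]
    have h3 := hLB t htpos htt0
    have hsk : 0 < s ^ k := by positivity
    have h4 : 1 / 2 * s ^ k * (t / 2 * Real.exp (-(1 / 16 / t))) ≤
        1 / 2 * s ^ k * ∫ θ in (0 : ℝ)..t, W θ :=
      mul_le_mul_of_nonneg_left h3 (by positivity)
    have h5 : s ^ k * Real.exp (-(1 / 8 / t)) ≤
        1 / 2 * s ^ k * (t / 2 * Real.exp (-(1 / 16 / t))) := by
      have h6 : Real.exp (-(1 / 8 / t)) = Real.exp (-(1 / 16 / t)) * Real.exp (-(1 / 16 / t)) := by
        rw [← Real.exp_add]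
        congr 1
        ring
      have h7 : Real.exp (-(1 / 16 / t)) ≤ t / 4 := by
        set y := 1 / 16 / t with hy
        have hy0 : 0 < y := by positivity
        have h8 := Real.quadratic_le_exp_of_nonneg hy0.le
        have h9 : t * y = 1 / 16 := by
          rw [hy]
          field_simp
        rw [Real.exp_neg, inv_le_comm₀ (Real.exp_pos _) (by positivity), inv_div]
        refine le_trans ?_ h8
        rw [div_le_iff₀ htpos]
        have h10 : (1 + y + y ^ 2 / 2) * t = t + t * y + (t * y) * y / 2 := by ring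
        rw [h10, h9]
        have h11 : 128 ≤ y := by
          rw [hy, le_div_iff₀ htpos]
          linarith
        nlinarith
      rw [h6]
      have h8 : 0 < Real.exp (-(1 / 16 / t)) := Real.exp_pos _
      have h9 := mul_le_mul_of_nonneg_left h7 (by positivity : 0 ≤ s ^ k * Real.exp (-(1 / 16 / t)))
      linarith
    linarith
  obtain ⟨k0, hk0⟩ := key
  refine ⟨∑ k ∈ Finset.range k0, |16 ^ k * ∫ θ in (0 : ℝ)..1, (xi θ ^ k).re * W θ|, fun k => ?_⟩
  rcases lt_or_ge k k0 with hk | hk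
  · have h1 := Finset.single_le_sum (f := fun k => |16 ^ k * ∫ θ in (0 : ℝ)..1, (xi θ ^ k).re * W θ|)
      (fun i _ => abs_nonneg _) (Finset.mem_range.2 hk)
    have h2 := neg_abs_le (16 ^ k * ∫ θ in (0 : ℝ)..1, (xi θ ^ k).re * W θ)
    linarith
  · have h1 : 0 ≤ 16 ^ k * ∫ θ in (0 : ℝ)..1, (xi θ ^ k).re * W θ :=
      mul_nonneg (by positivity) (hk0 k hk)
    have h2 : 0 ≤ ∑ k ∈ Finset.range k0, |16 ^ k * ∫ θ in (0 : ℝ)..1, (xi θ ^ k).re * W θ| :=
      Finset.sum_nonneg fun i _ => abs_nonneg _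
    linarith

end Q88.CC
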