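import Mathlib
import Pool.Agent.Q88.CC.Cyc
import Pool.Agent.Q88.CC.Elem

/-!
# The operator `T = -16 + (2/25) i (1 - S)` is convex-cyclic
-/

set_option autoImplicit false

open Filter Topology Finset

namespace Q88.CC

open Q88.QN

/-- the parameter -/
noncomputable def ep' : ℝ := 1 / 200

/-- `u = 1 - i ε (1 - S)` -/
noncomputable def uu : L2 →L[ℂ] L2 := 1 - (Complex.I * ((1 / 200 : ℝ) : ℂ)) • AA

/-- Convex-cyclic operators: the convex hull of some orbit is dense. -/
def ConvexCyclic {H : Type*} [NormedAddCommGroup H] [InnerProductSpace ℂ H] (T : H →L[ℂ] H) : Prop :=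
  ∃ x : H, Dense (convexHull ℝ (Set.range fun k : ℕ => (T ^ k) x))

theorem restrict_pow (u : L2 →L[ℂ] L2) (k : ℕ) (x : L2) :
    ((u.restrictScalars ℝ) ^ k) x = (u ^ k) x := by
  induction k with
  | zero => rfl
  | succ k ih =>
    rw [pow_succ', pow_succ', mul_apply_eq_comp, mul_apply_eq_comp, ih]
    rfl

theorem one_sub_uu : (1 : L2 →L[ℂ] L2) - uu = (Complex.I * ((1 / 200 : ℝ) : ℂ)) • AA := by
  unfold uu
  abel

theorem uu_near : ‖(1 : L2 →L[ℝ] L2) - uu.restrictScalars ℝ‖ ≤ 1 / 100 := by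
  refine ContinuousLinearMap.opNorm_le_bound _ (by norm_num) fun x => ?_
  have h1 : ((1 : L2 →L[ℝ] L2) - uu.restrictScalars ℝ) x = ((1 : L2 →L[ℂ] L2) - uu) x := rfl
  rw [h1, one_sub_uu, _root_.smul_apply, norm_smul, norm_mul, Complex.norm_I, one_mul,
    Complex.norm_real, Real.norm_eq_abs, abs_of_pos (by norm_num)]
  have h2 := AA.le_opNorm x
  have h3 := mul_le_mul_of_nonneg_right AA_norm (norm_nonneg x)
  linarith

/-- the real part of the inner product with `h`, as a real functional -/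
noncomputable def ell (h : L2) : L2 →L[ℝ] ℝ :=
  Complex.reCLM ∘L ((innerSL ℂ h).restrictScalars ℝ)

theorem ell_apply (h x : L2) : ell h x = (inner ℂ h x).re := rfl

theorem h_zero (h : L2) (C : ℝ)
    (hb : ∀ k : ℕ, (inner ℂ h ((((-16 : ℂ) • uu) ^ k) e0)).re ≤ C) : h = 0 := by
  have h1 : ∀ k : ℕ, (-16) ^ k * ell h (((uu.restrictScalars ℝ) ^ k) e0) ≤ C := by
    intro k
    have h2 := hb k
    rw [smul_pow, _root_.smul_apply, inner_smul_right] at h2
    have h3 : ((-16 : ℂ)) ^ k = (((-16 : ℝ) ^ k : ℝ) : ℂ) := by push_cast; rfl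
    rw [h3, Complex.re_ofReal_mul] at h2
    rw [restrict_pow, ell_apply]
    exact h2
  have h2 := zero_of_bdd (uu.restrictScalars ℝ) uu_near (ell h) e0 C h1
  apply eq_zero_of_sym
  intro k
  set d := inner ℂ h ((AA ^ k) e0) with hd
  have h3 := sum_one_sub (uu.restrictScalars ℝ) (ell h) e0 k
  simp only [h2, mul_zero, sum_const_zero] at h3
  have h4 : ((1 : L2 →L[ℝ] L2) - uu.restrictScalars ℝ) =
      ((1 : L2 →L[ℂ] L2) - uu).restrictScalars ℝ := rfl
  rw [h4, restrict_pow, one_sub_uu, ell_apply, smul_pow, _root_.smul_apply, inner_smul_right,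
    ← hd, mul_pow, ← Complex.ofReal_pow] at h3
  have h5 : (Complex.I ^ k * (((1 / 200 : ℝ) ^ k : ℝ) : ℂ) * d) =
      (((1 / 200 : ℝ) ^ k : ℝ) : ℂ) * (Complex.I ^ k * d) := by ring
  rw [h5, Complex.re_ofReal_mul] at h3
  have h6 : (Complex.I ^ k * d).re = 0 := by
    rcases mul_eq_zero.1 h3.symm with h7 | h7
    · exact absurd h7 (by positivity)
    · exact h7
  have h7 : (Complex.I ^ k * d) + (starRingEnd ℂ) (Complex.I ^ k * d) = 0 := by
    rw [Complex.add_conj, h6]
    simp
  rw [map_mul, map_pow, Complex.conj_I] at h7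
  have h8 : Complex.I ^ k * (-Complex.I) ^ k = 1 := by
    rw [← mul_pow]
    simp
  have h9 : Complex.I ^ k * Complex.I ^ k = (-1) ^ k := by
    rw [← mul_pow, Complex.I_mul_I]
  calc (starRingEnd ℂ) d = (Complex.I ^ k * (-Complex.I) ^ k) * (starRingEnd ℂ) d := by
        rw [h8, one_mul]
    _ = Complex.I ^ k * ((-Complex.I) ^ k * (starRingEnd ℂ) d) := by ring
    _ = Complex.I ^ k * (-(Complex.I ^ k * d)) := by
        congr 1
        linear_combination h7
    _ = (-1) ^ (k + 1) * d := by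
        rw [pow_succ]
        linear_combination (-d) * h9

theorem pos : ConvexCyclic ((-16 : ℂ) • uu) := by
  refine ⟨e0, ?_⟩
  rw [dense_iff_closure_eq]
  by_contra hne
  obtain ⟨y, hy⟩ := (Set.ne_univ_iff_exists_notMem _).1 hne
  obtain ⟨f, s, hf1, hf2⟩ := RCLike.geometric_hahn_banach_closed_point (𝕜 := ℂ)
    (convex_convexHull ℝ (Set.range fun k : ℕ => (((-16 : ℂ) • uu) ^ k) e0)).closure
    isClosed_closure hy
  set h := (InnerProductSpace.toDual ℂ L2).symm f with hh
  have hfh : ∀ x, f x = inner ℂ h x := fun x => (InnerProductSpace.toDual_symm_apply).symm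
  have h0 : h = 0 := by
    apply h_zero h s
    intro k
    rw [← hfh]
    exact (hf1 _ (subset_closure (subset_convexHull ℝ _ ⟨k, rfl⟩))).le
  have h1 := hf1 _ (subset_closure (subset_convexHull ℝ _ ⟨0, rfl⟩))
  rw [hfh, h0, inner_zero_left] at h1 hf2
  simp at h1 hf2
  linarith

end Q88.CC
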