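import Mathlib
import Pool.Agent.Q88.CC.Bdry
import Pool.Agent.Q88.CC.Est
import Pool.Agent.Q88.CC.Pos

/-!
# The operator `-T = 16 - (2/25) i (1 - S)` is not convex-cyclic
-/

set_option autoImplicit false

open Filter Topology MeasureTheory

namespace Q88.CC

open Q88.QN

/-- the pairing of a boundary function with a vector -/
noncomputable def Lam (g : ℝ → ℂ) (y : L2) : ℂ := ∫ θ, (starRingEnd ℂ) (g θ) * JJ y θ ∂mu

theorem Lam_eq (g : ℝ → ℂ) (hg : MemLp g 2 mu) (y : L2) : Lam g y = inner ℂ (hg.toLp g) (JJ y) := by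
  rw [MeasureTheory.L2.inner_def, Lam]
  apply integral_congr_ae
  filter_upwards [hg.coeFn_toLp] with θ h
  rw [h, RCLike.inner_apply]
  ring

theorem xi_ee (θ : ℝ) : xi θ = (1 - Complex.I * ((1 / 200 : ℝ) : ℂ)) +
    (Complex.I * ((1 / 200 : ℝ) : ℂ)) * ee 1 θ := by
  rw [xi, ee, ep]
  push_cast
  rw [mul_one]
  ring

theorem ee_norm (m : ℤ) (θ : ℝ) : ‖ee m θ‖ = 1 := by
  unfold ee
  have : Complex.I * (m : ℂ) * (θ : ℂ) = ((m * θ : ℝ) : ℂ) * Complex.I := by
    push_cast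
    ring
  rw [this, Complex.norm_exp_ofReal_mul_I]

theorem mem_mul (φ : ℝ → ℂ) (hφ : Continuous φ) (C : ℝ) (hC : ∀ θ, ‖φ θ‖ ≤ C) (g : ℝ → ℂ)
    (hg : MemLp g 2 mu) : MemLp (fun θ => φ θ * g θ) 2 mu := by
  refine MemLp.of_le_mul (c := C) hg (hφ.aestronglyMeasurable.mul hg.1) ?_
  refine Eventually.of_forall fun θ => ?_
  rw [norm_mul]
  exact mul_le_mul_of_nonneg_right (hC θ) (norm_nonneg _)

theorem Lam_int (g : ℝ → ℂ) (hg : MemLp g 2 mu) (y : L2) :
    Integrable (fun θ => (starRingEnd ℂ) (g θ) * JJ y θ) mu := by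
  have h1 : MemLp (fun θ => (starRingEnd ℂ) (g θ)) 2 mu := hg.star
  exact h1.integrable_mul (Lp.memLp (JJ y))

/-- multiplication by the conjugate exponential -/
noncomputable def ce (g : ℝ → ℂ) (θ : ℝ) : ℂ := (starRingEnd ℂ) (ee 1 θ) * g θ

theorem ce_mem (g : ℝ → ℂ) (hg : MemLp g 2 mu) : MemLp (ce g) 2 mu := by
  apply mem_mul _ (Complex.continuous_conj.comp (ee_cont 1)) 1 _ g hg
  intro θ
  show ‖(starRingEnd ℂ) (ee 1 θ)‖ ≤ 1
  rw [RCLike.norm_conj, ee_norm]

theorem Lam_basis (g : ℝ → ℂ) (hg : MemLp g 2 mu) (n : ℕ) :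
    inner ℂ (hg.toLp g) (vv (n + 1)) = inner ℂ ((ce_mem g hg).toLp (ce g)) (vv n) := by
  rw [MeasureTheory.L2.inner_def, MeasureTheory.L2.inner_def]
  apply integral_congr_ae
  filter_upwards [hg.coeFn_toLp, (ce_mem g hg).coeFn_toLp, vv_coe (n + 1), vv_coe n] with θ h1 h2 h3 h4
  rw [h1, h2, h3, h4, RCLike.inner_apply, RCLike.inner_apply, ce, map_mul, Complex.conj_conj]
  have h5 : ee ((n + 1 : ℕ) : ℤ) θ = ee n θ * ee 1 θ := by
    have := circle_eq (n + 1) θ
    rw [← this, pow_succ, circle_eq]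
    congr 1
    have h6 := circle_eq 1 θ
    rw [pow_one] at h6
    exact h6
  rw [h5]
  ring

theorem Lam_shift (g : ℝ → ℂ) (hg : MemLp g 2 mu) (y : L2) : Lam g (fsh y) = Lam (ce g) y := by
  rw [Lam_eq g hg, Lam_eq (ce g) (ce_mem g hg)]
  have h1 : HasSum (fun n => inner ℂ (hg.toLp g) (fsh y n • vv n)) (inner ℂ (hg.toLp g) (JJ (fsh y))) :=
    (JJ_sum (fsh y)).mapL (innerSL ℂ (hg.toLp g))
  have h2 : HasSum (fun n => inner ℂ ((ce_mem g hg).toLp (ce g)) (y n • vv n))
      (inner ℂ ((ce_mem g hg).toLp (ce g)) (JJ y)) :=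
    (JJ_sum y).mapL (innerSL ℂ ((ce_mem g hg).toLp (ce g)))
  have h3 : HasSum (fun n => inner ℂ (hg.toLp g) (fsh y (n + 1) • vv (n + 1)))
      (inner ℂ (hg.toLp g) (JJ (fsh y))) := by
    rw [hasSum_nat_add_iff' 1 |>.symm] at h1
    simpa [fsh_zero] using h1
  refine h3.unique ?_
  have h4 : (fun n => inner ℂ (hg.toLp g) (fsh y (n + 1) • vv (n + 1))) =
      fun n => inner ℂ ((ce_mem g hg).toLp (ce g)) (y n • vv n) := by
    ext n
    rw [fsh_succ, inner_smul_right, inner_smul_right, Lam_basis]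
  rw [h4]
  exact h2

/-- multiplication by the conjugate symbol -/
noncomputable def cx (k : ℕ) (g : ℝ → ℂ) (θ : ℝ) : ℂ := (starRingEnd ℂ) (xi θ) ^ k * g θ

theorem cx_mem (k : ℕ) (g : ℝ → ℂ) (hg : MemLp g 2 mu) : MemLp (cx k g) 2 mu := by
  apply mem_mul (fun θ => (starRingEnd ℂ) (xi θ) ^ k)
    ((Complex.continuous_conj.comp xi_cont).pow k) (2 ^ k) _ g hg
  intro θ
  rw [norm_pow, RCLike.norm_conj]
  exact pow_le_pow_left₀ (norm_nonneg _) (xi_norm_le θ) k

theorem Lam_uu (g : ℝ → ℂ) (hg : MemLp g 2 mu) (y : L2) : Lam g (uu y) = Lam (cx 1 g) y := by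
  set c : ℂ := Complex.I * ((1 / 200 : ℝ) : ℂ) with hc
  have h1 : uu y = (1 - c) • y + c • fsh y := by
    have : uu y = y - c • (y - fsh y) := rfl
    rw [this, sub_smul, smul_sub, one_smul]
    abel
  have h2 : Lam g (uu y) = (1 - c) * Lam g y + c * Lam (ce g) y := by
    rw [← Lam_shift g hg, Lam_eq g hg, Lam_eq g hg, Lam_eq g hg, h1, map_add, map_smul, map_smul,
      inner_add_right, inner_smul_right, inner_smul_right]
  rw [h2, Lam, Lam, Lam, ← integral_const_mul, ← integral_const_mul, ← integral_add]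
  · congr 1
    ext θ
    simp only [cx, ce, pow_one, map_mul, Complex.conj_conj]
    rw [xi_ee, ← hc]
    ring
  · exact (Lam_int g hg y).const_mul _
  · exact (Lam_int (ce g) (ce_mem g hg) y).const_mul _

theorem Lam_pow (k : ℕ) (g : ℝ → ℂ) (hg : MemLp g 2 mu) (y : L2) :
    Lam g ((uu ^ k) y) = Lam (cx k g) y := by
  induction k generalizing y with
  | zero =>
    rw [pow_zero, one_apply_eq_self]
    congr 1
    ext θ
    simp [cx]
  | succ k ih =>
    rw [pow_succ, mul_apply_eq_comp, ih, Lam_uu _ (cx_mem k g hg)]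
    congr 1
    ext θ
    simp only [cx, pow_one]
    ring

theorem lower (F : ℝ → ℂ) (hF : Measurable F) (hfin : ∫⁻ θ, psi ‖F θ‖ ∂mu ≠ ⊤) :
    ∃ t0 : ℝ, 0 < t0 ∧ ∀ t, 0 < t → t < t0 →
      t / 2 * Real.exp (-(1 / 16 / t)) ≤ ∫ θ in (0 : ℝ)..t, min (‖F θ‖ ^ 2) 1 := by
  obtain ⟨δ, hδ, hlt⟩ := exists_pos_setLIntegral_lt_of_measure_lt hfin
    (ε := ENNReal.ofReal (1 / 64)) (by
      rw [Ne, ENNReal.ofReal_eq_zero]
      norm_num)
  obtain ⟨d, hd0, hd⟩ : ∃ d : ℝ, 0 < d ∧ ENNReal.ofReal d ≤ δ := by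
    rcases eq_or_ne δ ⊤ with h | h
    · exact ⟨1, one_pos, by rw [h]; exact le_top⟩
    · exact ⟨δ.toReal, ENNReal.toReal_pos hδ.ne' h, by rw [ENNReal.ofReal_toReal h]⟩
  refine ⟨min d 1, by positivity, fun t ht htt => ?_⟩
  have htd : t < d := htt.trans_le (min_le_left _ _)
  have ht1 : t < 1 := htt.trans_le (min_le_right _ _)
  have hpi : 1 < 2 * Real.pi := by
    have := Real.pi_gt_three
    linarith
  have hsub : Set.Ioc 0 t ⊆ Set.Ioc 0 (2 * Real.pi) :=
    Set.Ioc_subset_Ioc_right (by linarith)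
  have hmures : mu.restrict (Set.Ioc 0 t) = volume.restrict (Set.Ioc 0 t) := by
    unfold mu
    rw [Measure.restrict_restrict measurableSet_Ioc, Set.inter_eq_self_of_subset_left hsub]
  have hmeas : mu (Set.Ioc 0 t) < δ := by
    have h1 : mu (Set.Ioc 0 t) = ENNReal.ofReal t := by
      unfold mu
      rw [Measure.restrict_apply measurableSet_Ioc, Set.inter_eq_self_of_subset_left hsub,
        Real.volume_Ioc, sub_zero]
    rw [h1]
    exact ((ENNReal.ofReal_lt_ofReal_iff hd0).2 htd).trans_le hd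
  have hint := hlt _ hmeas
  rw [hmures] at hint
  have hpsim : Measurable fun θ => psi ‖F θ‖ := psi_meas.comp hF.norm
  set c : ENNReal := ENNReal.ofReal (1 / 32 / t) with hc
  set B : Set ℝ := {θ | c ≤ psi ‖F θ‖} with hB
  have hBm : MeasurableSet B := measurableSet_le measurable_const hpsim
  have hmarkov : c * (volume.restrict (Set.Ioc 0 t)) B ≤
      ∫⁻ θ in Set.Ioc 0 t, psi ‖F θ‖ := mul_meas_ge_le_lintegral hpsim c
  set A : Set ℝ := Set.Ioc 0 t \ B with hA
  have hAm : MeasurableSet A := measurableSet_Ioc.diff hBm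
  have hBvol : (volume.restrict (Set.Ioc 0 t)) B ≤ ENNReal.ofReal (t / 2) := by
    have h1 := hmarkov.trans hint.le
    have hc0 : c ≠ 0 := by
      rw [hc, Ne, ENNReal.ofReal_eq_zero]
      push Not
      positivity
    have h2 : (volume.restrict (Set.Ioc 0 t)) B ≤ ENNReal.ofReal (1 / 64) / c := by
      rw [ENNReal.le_div_iff_mul_le (Or.inl hc0) (Or.inl ENNReal.ofReal_ne_top), mul_comm]
      exact h1
    refine h2.trans (le_of_eq ?_)
    rw [hc, ← ENNReal.ofReal_div_of_pos (by positivity)]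
    congr 1
    field_simp
    norm_num
  have hAvol : t / 2 ≤ (volume A).toReal := by
    have h1 : volume (Set.Ioc 0 t ∩ B) ≤ ENNReal.ofReal (t / 2) := by
      rw [Measure.restrict_apply hBm, Set.inter_comm] at hBvol
      exact hBvol
    have h2 : volume A + volume (Set.Ioc 0 t ∩ B) = ENNReal.ofReal t := by
      rw [add_comm, hA, measure_inter_add_sdiff _ hBm, Real.volume_Ioc, sub_zero]
    have hAfin : volume A ≠ ⊤ := by
      have : volume A ≤ ENNReal.ofReal t := by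
        rw [← h2]
        exact le_self_add
      exact ne_top_of_le_ne_top ENNReal.ofReal_ne_top this
    have h3 : ENNReal.ofReal t ≤ volume A + ENNReal.ofReal (t / 2) := by
      rw [← h2]
      gcongr
    have h4 := ENNReal.toReal_mono (by
      exact ENNReal.add_ne_top.2 ⟨hAfin, ENNReal.ofReal_ne_top⟩) h3
    rw [ENNReal.toReal_ofReal ht.le, ENNReal.toReal_add hAfin ENNReal.ofReal_ne_top,
      ENNReal.toReal_ofReal (by positivity)] at h4
    linarith
  set W : ℝ → ℝ := fun θ => min (‖F θ‖ ^ 2) 1 with hW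
  have hWm : Measurable W := (hF.norm.pow_const 2).min measurable_const
  have hW0 : ∀ θ, 0 ≤ W θ := fun θ => le_min (by positivity) zero_le_one
  have hW1 : ∀ θ, W θ ≤ 1 := fun θ => min_le_right _ _
  have hWA : ∀ θ ∈ A, Real.exp (-(1 / 16 / t)) ≤ W θ := by
    intro θ hθ
    have h1 : psi ‖F θ‖ < c := by
      have := hθ.2
      rw [hB, Set.mem_ofPred_eq, not_le] at this
      exact this
    have h2 := lt_of_psi_lt _ _ (norm_nonneg _) h1
    apply le_min
    · have h3 := pow_le_pow_left₀ (Real.exp_pos _).le h2.le 2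
      rw [← Real.exp_nat_mul] at h3
      refine le_trans (le_of_eq ?_) h3
      congr 1
      push_cast
      ring
    · apply Real.exp_le_one_iff.2
      have : 0 < 1 / 16 / t := by positivity
      linarith
  rw [intervalIntegral.integral_of_le ht.le]
  have hWi : IntegrableOn W (Set.Ioc 0 t) volume := (bdd_int W hWm 1 (fun θ => by
    rw [abs_of_nonneg (hW0 θ)]
    exact hW1 θ) 0 t).1
  calc t / 2 * Real.exp (-(1 / 16 / t)) ≤ (volume A).toReal * Real.exp (-(1 / 16 / t)) :=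
        mul_le_mul_of_nonneg_right hAvol (Real.exp_pos _).le
    _ = ∫ _ in A, Real.exp (-(1 / 16 / t)) := by
        rw [setIntegral_const, smul_eq_mul]
        rfl
    _ ≤ ∫ θ in A, W θ := by
        have hfinA : volume A ≠ ⊤ :=
          (measure_mono Set.sdiff_subset).trans_lt measure_Ioc_lt_top |>.ne
        have hfinC : ‖Real.exp (-(1 / 16 / t))‖ₑ ≠ ⊤ := enorm_ne_top
        have hconst : IntegrableOn (fun _ : ℝ => Real.exp (-(1 / 16 / t))) A volume :=
          integrableOn_const hfinA hfinC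
        exact setIntegral_mono_on hconst (hWi.mono_set Set.sdiff_subset) hAm hWA
    _ ≤ ∫ θ in Set.Ioc 0 t, W θ :=
        setIntegral_mono_set hWi (Eventually.of_forall hW0) (Eventually.of_forall Set.sdiff_subset)

end Q88.CC
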