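import Mathlib
import Pool.Agent.Q88.CC.Neg

/-!
# A convex-cyclic operator `T` such that `-T` is not convex-cyclic
-/

set_option autoImplicit false

open Filter Topology MeasureTheory

namespace Q88.CC

open Q88.QN

theorem exists_bdd (x : L2) (hx : x ≠ 0) :
    ∃ (h : L2) (C : ℝ), h ≠ 0 ∧ ∀ k : ℕ, (inner ℂ h ((((16 : ℂ) • uu) ^ k) x)).re ≤ C := by
  obtain ⟨F, hFm, hFeq, hfin⟩ := log_bdry x hx
  have hLB := lower F hFm hfin
  set W : ℝ → ℝ := fun θ => min (‖F θ‖ ^ 2) 1 with hW
  have hWm : Measurable W := (hFm.norm.pow_const 2).min measurable_const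
  have hW0 : ∀ θ, 0 ≤ W θ := fun θ => le_min (by positivity) zero_le_one
  have hW1 : ∀ θ, W θ ≤ 1 := fun θ => min_le_right _ _
  obtain ⟨C, hC⟩ := osc W hWm hW0 hW1 hLB
  have hcc : (cc : ℂ) ≠ 0 := by exact_mod_cast cc_pos.ne'
  have hFmem : MemLp F 2 mu := by
    have h1 : MemLp (fun θ => (cc : ℂ)⁻¹ * JJ x θ) 2 mu := (Lp.memLp (JJ x)).const_mul _
    refine h1.ae_eq ?_
    filter_upwards [hFeq] with θ h
    exact h.symm
  -- the function `g`
  set g : ℝ → ℂ := fun θ => (Set.Ioc (0 : ℝ) 1).indicator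
    (fun θ => -(starRingEnd ℂ) ((W θ : ℂ) / F θ)) θ with hg
  have hgm : Measurable g := by
    apply Measurable.indicator _ measurableSet_Ioc
    exact ((Complex.continuous_conj.measurable.comp
      ((Complex.measurable_ofReal.comp hWm).div hFm))).neg
  have hgb : ∀ θ, ‖g θ‖ ≤ 1 * ‖F θ‖ := by
    intro θ
    rw [one_mul]
    refine (norm_indicator_le_norm_self _ _).trans ?_
    rw [norm_neg, RCLike.norm_conj, norm_div, Complex.norm_real, Real.norm_eq_abs,
      abs_of_nonneg (hW0 θ)]
    rcases eq_or_ne (‖F θ‖) 0 with h0 | h0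
    · rw [h0, div_zero]
    · rw [div_le_iff₀ (lt_of_le_of_ne (norm_nonneg _) (Ne.symm h0))]
      have : W θ ≤ ‖F θ‖ ^ 2 := min_le_left _ _
      nlinarith
  have hgmem : MemLp g 2 mu :=
    MemLp.of_le_mul hFmem hgm.aestronglyMeasurable (Eventually.of_forall hgb)
  set h : L2 := (InnerProductSpace.toDual ℂ L2).symm
    ((innerSL ℂ (hgmem.toLp g)) ∘L JJ.toContinuousLinearMap) with hh
  have hhy : ∀ y, inner ℂ h y = Lam g y := by
    intro y
    rw [hh, InnerProductSpace.toDual_symm_apply, Lam_eq g hgmem]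
    rfl
  have hval : ∀ k : ℕ, (inner ℂ h ((((16 : ℂ) • uu) ^ k) x)).re =
      -(cc * (16 ^ k * ∫ θ in (0 : ℝ)..1, (xi θ ^ k).re * W θ)) := by
    intro k
    rw [smul_pow, _root_.smul_apply, inner_smul_right, hhy, Lam_pow k g hgmem]
    have h16 : ((16 : ℂ)) ^ k = (((16 : ℝ) ^ k : ℝ) : ℂ) := by push_cast; rfl
    rw [h16, Complex.re_ofReal_mul]
    have h1 : Lam (cx k g) x = ∫ θ, (Set.Ioc (0 : ℝ) 1).indicator
        (fun θ => -((cc : ℂ) * (xi θ ^ k * (W θ : ℂ)))) θ ∂mu := by
      rw [Lam]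
      apply integral_congr_ae
      filter_upwards [hFeq] with θ hθ
      have hJ : JJ x θ = cc * F θ := by
        rw [hθ, ← mul_assoc, mul_inv_cancel₀ hcc, one_mul]
      rw [hJ, cx, hg]
      by_cases hm : θ ∈ Set.Ioc (0 : ℝ) 1
      · simp only [Set.indicator_of_mem hm, map_mul, map_pow, Complex.conj_conj, map_neg]
        rcases eq_or_ne (F θ) 0 with h0 | h0
        · have hW00 : W θ = 0 := by
            simp only [hW, h0]
            simp
          rw [h0, hW00]
          simp
        · field_simp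
      · simp only [Set.indicator_of_notMem hm, mul_zero, map_zero, zero_mul]
    rw [h1, integral_indicator measurableSet_Ioc]
    have hsub : Set.Ioc (0 : ℝ) 1 ⊆ Set.Ioc 0 (2 * Real.pi) := by
      apply Set.Ioc_subset_Ioc_right
      have := Real.pi_gt_three
      linarith
    have hmures : mu.restrict (Set.Ioc 0 1) = volume.restrict (Set.Ioc 0 1) := by
      unfold mu
      rw [Measure.restrict_restrict measurableSet_Ioc, Set.inter_eq_self_of_subset_left hsub]
    rw [hmures, ← intervalIntegral.integral_of_le zero_le_one, intervalIntegral.integral_neg,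
      intervalIntegral.integral_const_mul, Complex.neg_re, Complex.re_ofReal_mul]
    have hint : IntervalIntegrable (fun θ => xi θ ^ k * (W θ : ℂ)) volume 0 1 := by
      have hb : ∀ a b : ℝ, IntegrableOn (fun θ => xi θ ^ k * (W θ : ℂ)) (Set.Ioc a b) volume := by
        intro a b
        apply Measure.integrableOn_of_bounded (M := 2 ^ k)
        · exact measure_Ioc_lt_top.ne
        · exact ((xi_cont.pow k).measurable.mul
            (Complex.measurable_ofReal.comp hWm)).aestronglyMeasurable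
        · exact Eventually.of_forall fun θ => by
            rw [norm_mul, norm_pow, Complex.norm_real, Real.norm_eq_abs, abs_of_nonneg (hW0 θ)]
            calc ‖xi θ‖ ^ k * W θ ≤ 2 ^ k * 1 :=
                  mul_le_mul (pow_le_pow_left₀ (norm_nonneg _) (xi_norm_le θ) k) (hW1 θ) (hW0 θ)
                    (by positivity)
              _ = 2 ^ k := mul_one _
      exact ⟨hb 0 1, hb 1 0⟩
    have hre : (∫ θ in (0 : ℝ)..1, xi θ ^ k * (W θ : ℂ)).re =
        ∫ θ in (0 : ℝ)..1, (xi θ ^ k).re * W θ := by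
      have h2 := Complex.reCLM.intervalIntegral_comp_comm hint
      have h3 : (∫ θ in (0 : ℝ)..1, xi θ ^ k * (W θ : ℂ)).re =
        Complex.reCLM (∫ θ in (0 : ℝ)..1, xi θ ^ k * (W θ : ℂ)) := rfl
      rw [h3, ← h2]
      congr 1
      ext θ
      rw [Complex.reCLM_apply, Complex.re_mul_ofReal]
    rw [hre]
    ring
  have hccpos := cc_pos
  refine ⟨h, cc * C, ?_, fun k => ?_⟩
  · intro h0
    obtain ⟨t0, ht0, hlow⟩ := hLB
    have h1 := hval 0
    rw [h0, inner_zero_left] at h1
    simp only [pow_zero, one_mul, Complex.one_re, Complex.zero_re] at h1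
    set t := min (t0 / 2) 1 with ht
    have htpos : 0 < t := by positivity
    have h2 := hlow t htpos (lt_of_le_of_lt (min_le_left _ _) (by linarith))
    have hWi : ∀ a b, IntervalIntegrable W volume a b := fun a b =>
      bdd_int _ hWm 1 (fun θ => by rw [abs_of_nonneg (hW0 θ)]; exact hW1 θ) a b
    have h3 : ∫ θ in (0 : ℝ)..1, W θ = (∫ θ in (0 : ℝ)..t, W θ) + ∫ θ in t..1, W θ := by
      rw [intervalIntegral.integral_add_adjacent_intervals (hWi 0 t) (hWi t 1)]
    have h4 : 0 ≤ ∫ θ in t..1, W θ :=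
      intervalIntegral.integral_nonneg (min_le_right _ _) (fun θ _ => hW0 θ)
    have h5 : 0 < t / 2 * Real.exp (-(1 / 16 / t)) := by positivity
    have h6 : 0 < ∫ θ in (0 : ℝ)..1, W θ := by
      rw [h3]
      linarith
    have h7 : 0 < cc * ∫ θ in (0 : ℝ)..1, W θ := mul_pos hccpos h6
    linarith
  · rw [hval k]
    have := mul_le_mul_of_nonneg_left (hC k) hccpos.le
    linarith

theorem neg : ¬ ConvexCyclic ((16 : ℂ) • uu) := by
  rintro ⟨x, hx⟩
  have key : ∀ (h : L2) (C : ℝ), (∀ k : ℕ, (inner ℂ h ((((16 : ℂ) • uu) ^ k) x)).re ≤ C) →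
      h = 0 := by
    intro h C hC
    have hsub : convexHull ℝ (Set.range fun k : ℕ => (((16 : ℂ) • uu) ^ k) x) ⊆
        {y | (ell h) y ≤ C} := by
      apply convexHull_min
      · rintro _ ⟨k, rfl⟩
        exact hC k
      · exact convex_halfSpace_le (ell h).toLinearMap.isLinear C
    have hcl : IsClosed {y | (ell h) y ≤ C} := isClosed_le (ell h).continuous continuous_const
    have hall : ∀ y, ell h y ≤ C := by
      intro y
      exact (hcl.closure_subset_iff.2 hsub) (hx y)
    by_contra hne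
    have hpos : 0 < ‖h‖ ^ 2 := by
      have := norm_pos_iff.2 hne
      positivity
    obtain ⟨r, hr⟩ := exists_gt (C / ‖h‖ ^ 2)
    have h1 := hall ((r : ℝ) • h)
    rw [map_smul, ell_apply, smul_eq_mul] at h1
    have h2 : (inner ℂ h h).re = ‖h‖ ^ 2 := by
      rw [inner_self_eq_norm_sq_to_K]
      norm_cast
    rw [h2] at h1
    rw [div_lt_iff₀ hpos] at hr
    linarith
  rcases eq_or_ne x 0 with h0 | h0
  · have h1 := key e0 0 (fun k => by
      rw [h0, map_zero, inner_zero_right]
      exact le_rfl)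
    have h2 := e0_zero
    rw [h1] at h2
    exact zero_ne_one h2
  · obtain ⟨h, C, hne, hC⟩ := exists_bdd x h0
    exact hne (key h C hC)

end Q88.CC
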